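import Pool.Agent.Helper84.RK.Lower
import Pool.Agent.Helper63.RC.Sub

/-!
The lower bound, unconditional.
-/

set_option autoImplicit false

open MeasureTheory Set Metric ProbabilityTheory Filter Topology
open scoped ENNReal RealInnerProductSpace

namespace Pool.Agent.Helper84.RK

open Pool.Agent.Helper47.KP Pool.Agent.Helper49.EJ

lemma goodSubset : GoodSubset := fun γ h0 h1 => Pool.Agent.Helper63.RC.good_subset h0 h1

/-- **The lower bound.** -/
theorem lower {s : ℝ} (hs : Real.logb 2 (2 / Real.sqrt 3) < s) :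
    ∃ c : ℝ, 0 < c ∧ ∃ δ : ℝ, 0 < δ ∧ ∃ d₀ : ℕ, ∀ (d : ℕ) [NeZero d], d₀ ≤ d → ∀ n : ℕ,
      (2 : ℝ) ^ (s * d) ≤ n →
      (Measure.pi fun _ : Fin n => sig d).real {x | ¬ ∃ I : Finset (Fin n), Kis x I ∧
        c * ((d : ℝ) ^ (3 / 2 : ℝ) * (2 / Real.sqrt 3) ^ d) ≤ I.card} ≤ (2 : ℝ) ^ (-(δ * d)) :=
  lower_of goodSubset hs

end Pool.Agent.Helper84.RK
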