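import Pool.Agent.Helper84.RK.LowerFin

/-!
For very many random points the largest kissing subset has the exponent of the kissing number.
-/

set_option autoImplicit false

open MeasureTheory Set Metric ProbabilityTheory Filter Topology
open scoped ENNReal RealInnerProductSpace

namespace Pool.Agent.Helper84.RK

open Pool.Agent.Helper47.KP Pool.Agent.Helper49.EJ

variable {d : ℕ}

/-- points of the sphere with pairwise inner products at most `s` -/
def IsCode (s : ℝ) (Y : Finset (Sph d)) : Prop :=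
  ∀ y ∈ Y, ∀ z ∈ Y, y ≠ z → ⟪(y : EE d), (z : EE d)⟫ ≤ s

/-- the kissing number: the largest number of points with pairwise angles at least 60 degrees -/
noncomputable def tau (d : ℕ) : ℕ :=
  sSup {N : ℕ | ∃ Y : Finset (Sph d), IsCode (1 / 2) Y ∧ Y.card = N}

lemma real_cap [NeZero d] (hd : 3 ≤ d) (y : Sph d) {B : Set ℝ} (hB : MeasurableSet B) :
    (sig d).real {u : Sph d | ⟪(y : EE d), (u : EE d)⟫ ∈ B} = (den d).real B := by
  have h : sig d {u : Sph d | ⟪(y : EE d), (u : EE d)⟫ ∈ B} = den d B := by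
    rw [← map_inner hd y, Measure.map_apply (continuous_inner_S _).measurable hB]
    rfl
  rw [Measure.real, Measure.real, h]

lemma meas_cap (y : Sph d) {B : Set ℝ} (hB : MeasurableSet B) :
    MeasurableSet {u : Sph d | ⟪(y : EE d), (u : EE d)⟫ ∈ B} :=
  (continuous_inner_S _).measurable hB

lemma norm_sub_S (x y : Sph d) : ‖(x : EE d) - y‖ ^ 2 = 2 - 2 * ⟪(x : EE d), (y : EE d)⟫ := by
  rw [norm_sub_sq_real, norm_S, norm_S]; ring

/-- trivial upper bound for codes -/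
lemma code_card [NeZero d] (hd : 3 ≤ d) {Y : Finset (Sph d)} (hY : IsCode (1 / 2) Y) :
    (Y.card : ℝ) * (den d).real (Ioi (7 / 8)) ≤ 1 := by
  have hdisj : (Y : Set (Sph d)).PairwiseDisjoint
      (fun y => {u : Sph d | ⟪(y : EE d), (u : EE d)⟫ ∈ Ioi (7 / 8 : ℝ)}) := by
    intro y hy z hz hyz
    rw [Function.onFun, Set.disjoint_left]
    intro u hu hu'
    have h1 : (7 / 8 : ℝ) < ⟪(y : EE d), (u : EE d)⟫ := hu
    have h2 : (7 / 8 : ℝ) < ⟪(z : EE d), (u : EE d)⟫ := hu'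
    have h3 := hY y hy z hz hyz
    have e1 := norm_sub_S y u
    have e2 := norm_sub_S z u
    have e3 := norm_sub_S y z
    have n1 : ‖(y : EE d) - u‖ < 1 / 2 := by nlinarith [norm_nonneg ((y : EE d) - u)]
    have n2 : ‖(z : EE d) - u‖ < 1 / 2 := by nlinarith [norm_nonneg ((z : EE d) - u)]
    have n3 : ‖(y : EE d) - z‖ ≤ ‖(y : EE d) - u‖ + ‖(z : EE d) - u‖ := by
      rw [← norm_sub_rev (u : EE d) (z : EE d)]
      calc ‖(y : EE d) - z‖ = ‖((y : EE d) - u) + (u - z)‖ := by congr 1; abel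
        _ ≤ _ := norm_add_le _ _
    have n4 : ‖(y : EE d) - z‖ < 1 := by linarith
    nlinarith [norm_nonneg ((y : EE d) - z)]
  have h1 := measureReal_biUnion_finset (μ := sig d) hdisj
    (fun y _ => meas_cap y measurableSet_Ioi)
  have h2 : (sig d).real (⋃ y ∈ Y, {u : Sph d | ⟪(y : EE d), (u : EE d)⟫ ∈ Ioi (7 / 8 : ℝ)}) ≤ 1 :=
    measureReal_le_one
  rw [h1] at h2
  have h3 : ∑ y ∈ Y, (sig d).real {u : Sph d | ⟪(y : EE d), (u : EE d)⟫ ∈ Ioi (7 / 8 : ℝ)} =
      Y.card * (den d).real (Ioi (7 / 8)) := by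
    rw [Finset.sum_congr rfl fun y _ => real_cap hd y measurableSet_Ioi, Finset.sum_const,
      nsmul_eq_mul]
  rwa [h3] at h2

/-- the larger angle -/
noncomputable def sh (h : ℝ) : ℝ := (1 / 2 - h ^ 2) / (1 - 25 / 16 * h ^ 2)

lemma sh_lt {h : ℝ} (h0 : 0 < h) (h1 : h ≤ 1 / 4) : sh h < 1 / 2 := by
  unfold sh
  rw [div_lt_iff₀ (by nlinarith)]
  nlinarith

lemma sh_pos {h : ℝ} (h0 : 0 < h) (h1 : h ≤ 1 / 4) : 0 < sh h := by
  unfold sh
  apply div_pos <;> nlinarith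

/-- projection from a shell to a code with larger angles -/
lemma exists_code [NeZero d] (hd : 3 ≤ d) {h : ℝ} (h0 : 0 < h) (h1 : h ≤ 1 / 4)
    {Y : Finset (Sph d)} (hY : IsCode (1 / 2) Y) :
    ∃ Z : Finset (Sph d), IsCode (sh h) Z ∧
      (Y.card : ℝ) * (den d).real (Ioo h (5 / 4 * h)) ≤ Z.card := by
  classical
  set P := (den d).real (Ioo h (5 / 4 * h)) with hP
  set f : Sph d → ℝ := fun u => ∑ y ∈ Y,
    ({u : Sph d | ⟪(y : EE d), (u : EE d)⟫ ∈ Ioo h (5 / 4 * h)}).indicator (fun _ => (1 : ℝ)) u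
    with hf
  have hint : ∀ y : Sph d, Integrable (({u : Sph d | ⟪(y : EE d), (u : EE d)⟫ ∈
      Ioo h (5 / 4 * h)}).indicator (fun _ => (1 : ℝ))) (sig d) := fun y =>
    (integrable_const (1 : ℝ)).indicator (meas_cap y measurableSet_Ioo)
  have hfi : Integrable f (sig d) := integrable_finsetSum _ fun y _ => hint y
  have hfint : ∫ u, f u ∂(sig d) = Y.card * P := by
    rw [hf, integral_finsetSum _ fun y _ => hint y]
    have : ∀ y ∈ Y, ∫ u, ({u : Sph d | ⟪(y : EE d), (u : EE d)⟫ ∈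
        Ioo h (5 / 4 * h)}).indicator (fun _ => (1 : ℝ)) u ∂(sig d) = P := by
      intro y _
      rw [integral_indicator_const _ (meas_cap y measurableSet_Ioo), real_cap hd y measurableSet_Ioo,
        smul_eq_mul, mul_one]
    rw [Finset.sum_congr rfl this, Finset.sum_const, nsmul_eq_mul]
  obtain ⟨u, hu⟩ := exists_integral_le hfi
  rw [hfint] at hu
  -- the points in the shell
  set S := Y.filter (fun y : Sph d => ⟪(y : EE d), (u : EE d)⟫ ∈ Ioo h (5 / 4 * h)) with hS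
  have hfu : f u = S.card := by
    rw [hf, hS, Finset.card_filter]
    push_cast
    apply Finset.sum_congr rfl
    intro y _
    by_cases hy : ⟪(y : EE d), (u : EE d)⟫ ∈ Ioo h (5 / 4 * h)
    · rw [indicator_of_mem (show u ∈ {u : Sph d | ⟪(y : EE d), (u : EE d)⟫ ∈ Ioo h (5 / 4 * h)}
        from hy), if_pos hy]
    · rw [indicator_of_notMem (show u ∉ {u : Sph d | ⟪(y : EE d), (u : EE d)⟫ ∈ Ioo h (5 / 4 * h)}
        from hy), if_neg hy]
  rw [hfu] at hu
  -- the projection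
  set w : Sph d → EE d := fun y => (y : EE d) - ⟪(y : EE d), (u : EE d)⟫ • (u : EE d) with hw
  have hwin : ∀ y z : Sph d, ⟪w y, w z⟫ = ⟪(y : EE d), (z : EE d)⟫ -
      ⟪(y : EE d), (u : EE d)⟫ * ⟪(z : EE d), (u : EE d)⟫ := by
    intro y z
    simp only [hw]
    rw [inner_sub_left, inner_sub_right, inner_sub_right, inner_smul_left, inner_smul_right,
      inner_smul_left, inner_smul_right, inner_self_S, real_inner_comm (u : EE d) (z : EE d)]
    simp only [conj_trivial]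
    ring
  have hwn : ∀ y : Sph d, ‖w y‖ ^ 2 = 1 - ⟪(y : EE d), (u : EE d)⟫ ^ 2 := by
    intro y
    rw [← real_inner_self_eq_norm_sq, hwin, inner_self_S]; ring
  have hSt : ∀ y ∈ S, h < ⟪(y : EE d), (u : EE d)⟫ ∧ ⟪(y : EE d), (u : EE d)⟫ < 5 / 4 * h :=
    fun y hy => (Finset.mem_filter.1 hy).2
  have hw2 : ∀ y ∈ S, 1 - 25 / 16 * h ^ 2 ≤ ‖w y‖ ^ 2 := by
    intro y hy
    have h2 := hSt y hy
    rw [hwn]; nlinarith
  have hh : 0 < 1 - 25 / 16 * h ^ 2 := by nlinarith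
  have hwpos : ∀ y ∈ S, 0 < ‖w y‖ := by
    intro y hy
    have h3 := hw2 y hy
    by_contra hcon
    have h4 : ‖w y‖ = 0 := le_antisymm (not_lt.1 hcon) (norm_nonneg _)
    rw [h4] at h3
    linarith
  -- normalised projection
  set v : Sph d → Sph d := fun y => if hy : y ∈ S then
    ⟨(‖w y‖⁻¹ : ℝ) • w y, by
      rw [mem_sphere_zero_iff_norm, norm_smul, norm_inv, norm_norm,
        inv_mul_cancel₀ (hwpos y hy).ne']⟩ else y with hv
  have hvS : ∀ y ∈ S, (v y : EE d) = (‖w y‖⁻¹ : ℝ) • w y := by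
    intro y hy
    simp only [hv]
    rw [dif_pos hy]
  have hvin : ∀ y ∈ S, ∀ z ∈ S, y ≠ z → ⟪(v y : EE d), (v z : EE d)⟫ ≤ sh h := by
    intro y hy z hz hyz
    have hyY := (Finset.mem_filter.1 hy).1
    have hzY := (Finset.mem_filter.1 hz).1
    have h2 := hY y hyY z hzY hyz
    have h3 := hSt y hy
    have h4 := hSt z hz
    rw [hvS y hy, hvS z hz, inner_smul_left, inner_smul_right, hwin]
    simp only [conj_trivial]
    set N := ⟪(y : EE d), (z : EE d)⟫ - ⟪(y : EE d), (u : EE d)⟫ * ⟪(z : EE d), (u : EE d)⟫ with hN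
    have hNle : N ≤ 1 / 2 - h ^ 2 := by
      have : h * h ≤ ⟪(y : EE d), (u : EE d)⟫ * ⟪(z : EE d), (u : EE d)⟫ :=
        mul_le_mul h3.1.le h4.1.le h0.le (by linarith [h3.1])
      nlinarith
    have hwy := hwpos y hy
    have hwz := hwpos z hz
    have hprod : 1 - 25 / 16 * h ^ 2 ≤ ‖w y‖ * ‖w z‖ := by
      have e1 := hw2 y hy
      have e2 := hw2 z hz
      have e3 : (1 - 25 / 16 * h ^ 2) ^ 2 ≤ (‖w y‖ * ‖w z‖) ^ 2 := by
        rw [mul_pow, sq]
        exact mul_le_mul e1 e2 hh.le (by positivity)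
      exact (pow_le_pow_iff_left₀ hh.le (by positivity) (by norm_num)).1 e3
    have e : ‖w y‖⁻¹ * (‖w z‖⁻¹ * N) = N / (‖w y‖ * ‖w z‖) := by
      field_simp
    rw [e]
    unfold sh
    rcases le_or_gt N 0 with hN0 | hN0
    · refine le_trans (div_nonpos_of_nonpos_of_nonneg hN0 (by positivity)) ?_
      exact (sh_pos h0 h1).le
    · exact div_le_div₀ (by nlinarith) hNle hh hprod
  have hinj : Set.InjOn v S := by
    intro y hy z hz hyz
    by_contra hne
    have h2 := hvin y hy z hz hne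
    rw [hyz, inner_self_S] at h2
    have := sh_lt h0 h1
    linarith
  refine ⟨S.image v, ?_, ?_⟩
  · intro a ha b hb hab
    obtain ⟨y, hy, rfl⟩ := Finset.mem_image.1 ha
    obtain ⟨z, hz, rfl⟩ := Finset.mem_image.1 hb
    exact hvin y hy z hz (fun h' => hab (by rw [h']))
  · rw [Finset.card_image_of_injOn hinj]
    exact hu

/-- the measure of the shell -/
lemma shell_exp {h η : ℝ} (h0 : 0 < h) (h1 : h ≤ 1 / 4) (hη : 0 < η) :
    ∀ᶠ d : ℕ in atTop, (2 : ℝ) ^ (-((cc (5 / 4 * h) + η) * d)) ≤ (den d).real (Ioo h (5 / 4 * h)) := by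
  have hev := const_le_rpow (C := 8 / h) hη
  filter_upwards [hev, eventually_ge_atTop 3] with d hd hd3
  have e1 : (den d).real (Ioo h (5 / 4 * h)) = cst d * ∫ t in h..(5 / 4 * h), wt (d - 3) t := by
    have h2 : (den d).real (Ioo h (5 / 4 * h)) =
        ∫ t, (Ioo h (5 / 4 * h)).indicator (fun _ => (1 : ℝ)) t ∂(den d) := by
      rw [integral_indicator_const _ measurableSet_Ioo]; simp
    rw [h2, integral_den]
    congr 1
    have h3 : ∀ t, (Ioo h (5 / 4 * h)).indicator (fun _ => (1 : ℝ)) t * wt (d - 3) t =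
        (Ioo h (5 / 4 * h)).indicator (wt (d - 3)) t := by
      intro t
      by_cases ht : t ∈ Ioo h (5 / 4 * h)
      · rw [indicator_of_mem ht, indicator_of_mem ht, one_mul]
      · rw [indicator_of_notMem ht, indicator_of_notMem ht, zero_mul]
    simp only [h3]
    have h4 : Ioc (-1 : ℝ) 1 ∩ Ioo h (5 / 4 * h) = Ioo h (5 / 4 * h) := by
      ext t
      simp only [mem_inter_iff, mem_Ioc, mem_Ioo]
      constructor
      · rintro ⟨_, h5⟩; exact h5
      · rintro ⟨h5, h6⟩; exact ⟨⟨by linarith, by linarith⟩, h5, h6⟩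
    rw [intervalIntegral.integral_of_le (by linarith), intervalIntegral.integral_of_le (by linarith),
      setIntegral_indicator measurableSet_Ioo, h4, integral_Ioc_eq_integral_Ioo]
  rw [e1]
  have h5 : (5 / 4 * h - h) * wt (d - 3) (5 / 4 * h) ≤ ∫ t in h..(5 / 4 * h), wt (d - 3) t := by
    have h6 : ∫ _t in h..(5 / 4 * h), wt (d - 3) (5 / 4 * h) ≤ ∫ t in h..(5 / 4 * h), wt (d - 3) t := by
      apply intervalIntegral.integral_mono_on (by linarith) intervalIntegrable_const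
        ((continuous_wt _).intervalIntegrable _ _)
      intro t ht
      exact wt_anti (d - 3) (h0.le.trans ht.1) ht.2
    rwa [intervalIntegral.integral_const, smul_eq_mul] at h6
  have h7 : Real.sqrt (1 - (5 / 4 * h) ^ 2) ^ d ≤ wt (d - 3) (5 / 4 * h) := by
    unfold wt
    apply pow_le_pow_of_le_one (Real.sqrt_nonneg _) _ (by omega)
    rw [Real.sqrt_le_one]
    nlinarith [sq_nonneg (5 / 4 * h)]
  rw [pow_cc (by linarith) (by linarith)] at h7
  have h8 := cst_lower d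
  have h9 : 1 / 2 * (h / 4 * (2 : ℝ) ^ (-(cc (5 / 4 * h) * d))) ≤
      cst d * ∫ t in h..(5 / 4 * h), wt (d - 3) t := by
    apply mul_le_mul h8 _ (by positivity) (cst_pos d).le
    refine le_trans ?_ h5
    have : 5 / 4 * h - h = h / 4 := by ring
    rw [this]
    exact mul_le_mul_of_nonneg_left h7 (by positivity)
  refine le_trans ?_ h9
  have e : (2 : ℝ) ^ (-(cc (5 / 4 * h) * d)) =
      (2 : ℝ) ^ (-((cc (5 / 4 * h) + η) * d)) * (2 : ℝ) ^ (η * d) := by
    rw [← Real.rpow_add (by norm_num)]; congr 1; ring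
  rw [e]
  rw [div_le_iff₀ h0] at hd
  have h10 : 0 < (2 : ℝ) ^ (-((cc (5 / 4 * h) + η) * d)) := by positivity
  nlinarith

/-- many random points contain a copy of a code with a larger angle -/
lemma dense_prob [NeZero d] (hd : 3 ≤ d) {s : ℝ} (hs : s < 1 / 2) {Z : Finset (Sph d)}
    (hZ : IsCode s Z) (n : ℕ) :
    (Measure.pi fun _ : Fin n => sig d).real {x | ¬ ∃ I : Finset (Fin n), Kis x I ∧
      Z.card ≤ I.card} ≤
      Z.card * (1 - (den d).real (Ioi (1 - ((1 / 2 - s) / 2) ^ 2 / 2))) ^ n := by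
  classical
  set r := (1 / 2 - s) / 2 with hr
  have hr0 : 0 < r := by rw [hr]; linarith
  set μ := Measure.pi fun _ : Fin n => sig d with hμ
  set E : Sph d → Set (Fin n → Sph d) := fun z =>
    {x | ∀ i, ¬ (1 - r ^ 2 / 2 < ⟪(z : EE d), (x i : EE d)⟫)} with hE
  have hEm : ∀ z, μ.real (E z) = (1 - (den d).real (Ioi (1 - r ^ 2 / 2))) ^ n := by
    intro z
    have h1 : E z = Set.pi univ (fun _ : Fin n =>
        {u : Sph d | ⟪(z : EE d), (u : EE d)⟫ ∈ Ioi (1 - r ^ 2 / 2)}ᶜ) := by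
      ext x
      simp only [hE, Set.mem_ofPred_eq, Set.mem_pi, mem_univ, forall_true_left, mem_compl_iff, mem_Ioi]
    rw [Measure.real, h1, hμ, Measure.pi_pi, Finset.prod_const, Finset.card_univ, Fintype.card_fin,
      ENNReal.toReal_pow]
    congr 1
    rw [← Measure.real, measureReal_compl (meas_cap z measurableSet_Ioi),
      real_cap hd z measurableSet_Ioi]
    simp
  have hsub : {x | ¬ ∃ I : Finset (Fin n), Kis x I ∧ Z.card ≤ I.card} ⊆ ⋃ z ∈ Z, E z := by
    intro x hx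
    rw [Set.mem_ofPred_eq] at hx
    by_contra hcon
    simp only [mem_iUnion, exists_prop, not_exists, not_and, hE, Set.mem_ofPred_eq, not_forall,
      not_not] at hcon
    apply hx
    rcases Z.eq_empty_or_nonempty with hZe | ⟨z₀, hz₀⟩
    · refine ⟨∅, ?_, ?_⟩
      · intro i hi
        exact absurd hi (Finset.notMem_empty i)
      · rw [hZe]; simp
    have hne : Nonempty (Fin n) := ⟨(hcon z₀ hz₀).choose⟩
    choose! f hf using hcon
    have hnear : ∀ z ∈ Z, ‖(z : EE d) - x (f z)‖ < r := by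
      intro z hz
      have h1 := hf z hz
      have h2 := norm_sub_S z (x (f z))
      have h3 : ‖(z : EE d) - x (f z)‖ ^ 2 < r ^ 2 := by rw [h2]; linarith
      exact (pow_lt_pow_iff_left₀ (norm_nonneg _) hr0.le (by norm_num)).1 h3
    have hin : ∀ z ∈ Z, ∀ w ∈ Z, z ≠ w →
        ⟪(x (f z) : EE d), (x (f w) : EE d)⟫ ≤ 1 / 2 := by
      intro z hz w hw hzw
      have h1 := hZ z hz w hw hzw
      have h2 := hnear z hz
      have h3 := hnear w hw
      have e : ⟪(x (f z) : EE d), (x (f w) : EE d)⟫ = ⟪(z : EE d), (w : EE d)⟫ +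
          ⟪(x (f z) : EE d) - z, (w : EE d)⟫ + ⟪(x (f z) : EE d), (x (f w) : EE d) - w⟫ := by
        rw [inner_sub_left, inner_sub_right]; ring
      have h4 : ⟪(x (f z) : EE d) - z, (w : EE d)⟫ ≤ r := by
        refine (real_inner_le_norm _ _).trans ?_
        rw [norm_S, mul_one, norm_sub_rev]
        exact h2.le
      have h5 : ⟪(x (f z) : EE d), (x (f w) : EE d) - w⟫ ≤ r := by
        refine (real_inner_le_norm _ _).trans ?_
        rw [norm_S, one_mul, norm_sub_rev]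
        exact h3.le
      rw [e]
      have : s + r + r = 1 / 2 := by rw [hr]; ring
      linarith
    have hinj : Set.InjOn f Z := by
      intro z hz w hw hzw
      by_contra hne
      have h1 := hin z hz w hw hne
      rw [hzw, inner_self_S] at h1
      linarith
    refine ⟨Z.image f, ?_, ?_⟩
    · intro i hi j hj hij
      obtain ⟨z, hz, rfl⟩ := Finset.mem_image.1 hi
      obtain ⟨w, hw, rfl⟩ := Finset.mem_image.1 hj
      exact hin z hz w hw (fun h' => hij (by rw [h']))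
    · rw [Finset.card_image_of_injOn hinj]
  calc μ.real {x | ¬ ∃ I : Finset (Fin n), Kis x I ∧ Z.card ≤ I.card}
      ≤ μ.real (⋃ z ∈ Z, E z) := measureReal_mono hsub (measure_ne_top _ _)
    _ ≤ ∑ z ∈ Z, μ.real (E z) := measureReal_biUnion_finset_le _ _
    _ = _ := by
        rw [Finset.sum_congr rfl fun z _ => hEm z, Finset.sum_const, nsmul_eq_mul]

/-- codes have at most `2^(3 d)` elements -/
lemma code_exp : ∃ d₀ : ℕ, 3 ≤ d₀ ∧ ∀ (d : ℕ) [NeZero d], d₀ ≤ d → ∀ Y : Finset (Sph d),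
    IsCode (1 / 2) Y → (Y.card : ℝ) ≤ (2 : ℝ) ^ (3 * (d : ℝ)) := by
  obtain ⟨d₁, h3, hd₁⟩ := cap_exp (s := 7 / 8) (η := 1) (by norm_num) (by norm_num) one_pos
  refine ⟨d₁, h3, fun d _ hd Y hY => ?_⟩
  have h1 := code_card (h3.trans hd) hY
  have h2 := (hd₁ d hd).1
  have hcc : cc (7 / 8) ≤ 2 := by
    unfold cc
    have h4 : -4 ≤ Real.logb 2 (1 - (7 / 8 : ℝ) ^ 2) := by
      rw [Real.le_logb_iff_rpow_le (by norm_num) (by norm_num),
        show (-4 : ℝ) = ((-4 : ℤ) : ℝ) by norm_num, Real.rpow_intCast]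
      norm_num
    linarith
  have hd0 : (0 : ℝ) ≤ d := Nat.cast_nonneg d
  have h5 : (2 : ℝ) ^ (-(3 * (d : ℝ))) ≤ (den d).real (Ioi (7 / 8)) := by
    refine le_trans ?_ h2
    apply Real.rpow_le_rpow_of_exponent_le (by norm_num)
    nlinarith
  rw [Real.rpow_neg (by norm_num)] at h5
  have h6 : 0 < (2 : ℝ) ^ (3 * (d : ℝ)) := by positivity
  have h7 : (Y.card : ℝ) * ((2 : ℝ) ^ (3 * (d : ℝ)))⁻¹ ≤ 1 :=
    le_trans (mul_le_mul_of_nonneg_left h5 (Nat.cast_nonneg _)) h1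
  rwa [mul_inv_le_iff₀ h6, one_mul] at h7

lemma tau_bdd [NeZero d] (hd : 3 ≤ d) :
    BddAbove {N : ℕ | ∃ Y : Finset (Sph d), IsCode (1 / 2) Y ∧ Y.card = N} := by
  have hpos : 0 < (den d).real (Ioi (7 / 8 : ℝ)) := by
    rw [cap_eq d _ (by norm_num) (by norm_num)]
    apply mul_pos (cst_pos d)
    apply intervalIntegral.intervalIntegral_pos_of_pos_on
      ((continuous_wt _).intervalIntegrable _ _) _ (by norm_num)
    intro t ht
    unfold wt
    have : 0 < 1 - t ^ 2 := by nlinarith [ht.1, ht.2]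
    positivity
  refine ⟨⌊1 / (den d).real (Ioi (7 / 8 : ℝ))⌋₊, ?_⟩
  rintro N ⟨Y, hY, rfl⟩
  apply Nat.le_floor
  rw [le_div_iff₀ hpos]
  exact code_card hd hY

lemma exists_tau [NeZero d] (hd : 3 ≤ d) :
    ∃ Y : Finset (Sph d), IsCode (1 / 2) Y ∧ Y.card = tau d :=
  Nat.sSup_mem (s := {N : ℕ | ∃ Y : Finset (Sph d), IsCode (1 / 2) Y ∧ Y.card = N})
    ⟨0, ∅, fun y hy => absurd hy (Finset.notMem_empty y), rfl⟩ (tau_bdd hd)

lemma code_le_tau [NeZero d] (hd : 3 ≤ d) {Y : Finset (Sph d)} (hY : IsCode (1 / 2) Y) :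
    Y.card ≤ tau d := le_csSup (tau_bdd hd) ⟨Y, hY, rfl⟩

/-- a kissing subset of any points has at most `τ(d)` elements -/
lemma kis_le_tau [NeZero d] (hd : 3 ≤ d) {n : ℕ} {x : Fin n → Sph d} {I : Finset (Fin n)}
    (hI : Kis x I) : I.card ≤ tau d := by
  classical
  have hinj : Set.InjOn x I := by
    intro i hi j hj hij
    by_contra hne
    have h1 := hI i hi j hj hne
    rw [hij, inner_self_S] at h1
    linarith
  rw [← Finset.card_image_of_injOn hinj]
  apply code_le_tau hd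
  intro y hy z hz hyz
  obtain ⟨i, hi, rfl⟩ := Finset.mem_image.1 hy
  obtain ⟨j, hj, rfl⟩ := Finset.mem_image.1 hz
  exact hI i hi j hj (fun h' => hyz (by rw [h']))

/-- **Very many random points.** For every `ε > 0` there is `s₁` such that for `s ≥ s₁` the largest
kissing subset of `n ≥ 2^(s d)` random points has between `2^(-ε d) τ(d)` and `τ(d)` elements. -/
theorem all_densities {ε : ℝ} (hε : 0 < ε) : ∃ s₁ : ℝ, ∀ s : ℝ, s₁ ≤ s → ∃ d₀ : ℕ, 3 ≤ d₀ ∧
    ∀ (d : ℕ) [NeZero d], d₀ ≤ d → ∀ n : ℕ, (2 : ℝ) ^ (s * d) ≤ n →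
      (Measure.pi fun _ : Fin n => sig d).real {x | ¬ ∃ I : Finset (Fin n), Kis x I ∧
        (2 : ℝ) ^ (-(ε * d)) * tau d ≤ I.card} ≤ (2 : ℝ) ^ (-(d : ℝ)) := by
  -- choice of h
  obtain ⟨h, h0, h1, hch⟩ : ∃ h : ℝ, 0 < h ∧ h ≤ 1 / 4 ∧ cc (5 / 4 * h) < ε / 2 := by
    have h1 := (continuousAt_cc le_rfl one_pos).eventually (gt_mem_nhds
      (show cc 0 < ε / 2 by unfold cc; simp; linarith))
    obtain ⟨e, he, h2⟩ := Metric.eventually_nhds_iff.1 h1
    refine ⟨min (e / 2) (1 / 4), lt_min (by linarith) (by norm_num), min_le_right _ _, ?_⟩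
    apply h2
    have h3 : 0 < min (e / 2) (1 / 4 : ℝ) := lt_min (by linarith) (by norm_num)
    have h4 : min (e / 2) (1 / 4 : ℝ) ≤ e / 2 := min_le_left _ _
    rw [Real.dist_eq, sub_zero, abs_of_pos (by linarith)]
    linarith
  set q := 1 - ((1 / 2 - sh h) / 2) ^ 2 / 2 with hq
  have hs1 := sh_lt h0 h1
  have hs0 := sh_pos h0 h1
  have hq1 : q < 1 := by
    rw [hq]
    have : 0 < ((1 / 2 - sh h) / 2) ^ 2 := by
      apply pow_pos; linarith
    linarith
  have hq0 : 0 ≤ q := by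
    rw [hq]
    nlinarith
  refine ⟨cc q + 1, fun s hs => ?_⟩
  obtain ⟨d₁, hd₁3, hd₁⟩ := cap_exp hq0 hq1 (show (0 : ℝ) < 1 / 2 by norm_num)
  obtain ⟨d₂, hd₂3, hd₂⟩ := code_exp
  obtain ⟨d₃, hd₃⟩ := eventually_atTop.1 (shell_exp h0 h1 (show 0 < ε / 2 by linarith))
  -- `4 d ≤ 2^(d/2)`
  have hgrow : ∀ᶠ d : ℕ in atTop, 4 * (d : ℝ) ≤ (2 : ℝ) ^ (1 / 2 * (d : ℝ)) := by
    have h2 : Tendsto (fun d : ℕ => (d : ℝ) * ((1 / 2 : ℝ) ^ (1 / 2 : ℝ)) ^ d) atTop (𝓝 0) := by
      have := tendsto_self_mul_const_pow_of_lt_one (r := (1 / 2 : ℝ) ^ (1 / 2 : ℝ)) (by positivity)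
        (Real.rpow_lt_one (by norm_num) (by norm_num) (by norm_num))
      exact this
    filter_upwards [h2.eventually (gt_mem_nhds (show (0 : ℝ) < 1 / 4 by norm_num))] with d hd
    have e1 : ((1 / 2 : ℝ) ^ (1 / 2 : ℝ)) ^ d = ((2 : ℝ) ^ (1 / 2 * (d : ℝ)))⁻¹ := by
      rw [← Real.rpow_natCast, ← Real.rpow_mul (by norm_num), one_div, Real.inv_rpow (by norm_num)]
    rw [e1, ← div_eq_mul_inv, div_lt_iff₀ (by positivity)] at hd
    linarith
  obtain ⟨d₄, hd₄⟩ := eventually_atTop.1 hgrow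
  refine ⟨max (max d₁ d₂) (max d₃ d₄), by omega, ?_⟩
  intro d _ hd n hn
  have h1d : d₁ ≤ d := by omega
  have h2d : d₂ ≤ d := by omega
  have h3d : d₃ ≤ d := by omega
  have h4d : d₄ ≤ d := by omega
  have hd3 : 3 ≤ d := by omega
  have hd0 : (0 : ℝ) ≤ d := Nat.cast_nonneg d
  obtain ⟨Y, hY, hYt⟩ := exists_tau hd3
  obtain ⟨Z, hZ, hYZ⟩ := exists_code hd3 h0 h1 hY
  have hshell := hd₃ d h3d
  have hZt : (2 : ℝ) ^ (-(ε * d)) * tau d ≤ Z.card := by
    refine le_trans ?_ hYZ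
    rw [hYt, mul_comm]
    apply mul_le_mul_of_nonneg_left _ (Nat.cast_nonneg _)
    refine le_trans ?_ hshell
    apply Real.rpow_le_rpow_of_exponent_le (by norm_num)
    nlinarith
  have hZ' : IsCode (1 / 2) Z := fun y hy z hz hyz => (hZ y hy z hz hyz).trans hs1.le
  have hZc := hd₂ d h2d Z hZ'
  have hprob := dense_prob hd3 hs1 hZ n
  rw [← hq] at hprob
  set V := (den d).real (Ioi q) with hV
  have hVl := (hd₁ d h1d).1
  have hV0 : 0 ≤ V := measureReal_nonneg
  have hV1 : V ≤ 1 := by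
    rw [hV, ← real_cap hd3 (Classical.choice (exists_point (d := d))) measurableSet_Ioi]
    exact measureReal_le_one
  have hnV : (2 : ℝ) ^ (1 / 2 * (d : ℝ)) ≤ n * V := by
    calc (2 : ℝ) ^ (1 / 2 * (d : ℝ)) = (2 : ℝ) ^ ((cc q + 1) * d) * (2 : ℝ) ^ (-((cc q + 1 / 2) * d)) := by
          rw [← Real.rpow_add (by norm_num)]; congr 1; ring
      _ ≤ n * V := by
          apply mul_le_mul _ hVl (by positivity) (Nat.cast_nonneg _)
          refine le_trans ?_ hn
          apply Real.rpow_le_rpow_of_exponent_le (by norm_num)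
          exact mul_le_mul_of_nonneg_right hs hd0
  have hpow : (1 - V) ^ n ≤ Real.exp (-(4 * d)) := by
    calc (1 - V) ^ n ≤ Real.exp (-V) ^ n := by
          apply pow_le_pow_left₀ (by linarith)
          have := Real.add_one_le_exp (-V)
          linarith
      _ = Real.exp (-(n * V)) := by rw [← Real.exp_nat_mul]; congr 1; ring
      _ ≤ Real.exp (-(4 * d)) := by
          apply Real.exp_le_exp.2
          have := hd₄ d h4d
          linarith
  have hexp : Real.exp (-(4 * (d : ℝ))) ≤ (2 : ℝ) ^ (-(4 * (d : ℝ))) := by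
    rw [Real.rpow_def_of_pos (by norm_num)]
    apply Real.exp_le_exp.2
    have := Real.log_two_lt_d9
    nlinarith
  have hsub : (Measure.pi fun _ : Fin n => sig d).real {x | ¬ ∃ I : Finset (Fin n), Kis x I ∧
      (2 : ℝ) ^ (-(ε * d)) * tau d ≤ I.card} ≤
      (Measure.pi fun _ : Fin n => sig d).real {x | ¬ ∃ I : Finset (Fin n), Kis x I ∧
        Z.card ≤ I.card} := by
    apply measureReal_mono _ (measure_ne_top _ _)
    intro x hx hx'
    apply hx
    obtain ⟨I, hI, hIc⟩ := hx'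
    refine ⟨I, hI, hZt.trans ?_⟩
    exact_mod_cast hIc
  calc _ ≤ _ := hsub
    _ ≤ _ := hprob
    _ ≤ (2 : ℝ) ^ (3 * (d : ℝ)) * (2 : ℝ) ^ (-(4 * (d : ℝ))) :=
        mul_le_mul hZc (hpow.trans hexp) (by positivity) (by positivity)
    _ = _ := by
        rw [← Real.rpow_add (by norm_num)]; congr 1; ring

/-- lower bound for `τ(d)` from the random points (Jenssen–Joos–Perkins) -/
lemma tau_lower {ε : ℝ} (hε : 0 < ε) : ∀ᶠ d : ℕ in atTop,
    (2 : ℝ) ^ ((cc (1 / 2) - ε) * d) ≤ tau d := by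
  obtain ⟨c, hc, δ, hδ, d₁, hd₁⟩ := lower (s := Real.logb 2 (2 / Real.sqrt 3) + 1) (by linarith)
  have hev := const_le_rpow (C := 1 / c) hε
  have hev2 := const_le_rpow (C := 2) hδ
  filter_upwards [hev, hev2, eventually_ge_atTop (max d₁ 3)] with d h1 h2 hd
  have hd1 : d₁ ≤ d := (le_max_left _ _).trans hd
  have hd3 : 3 ≤ d := (le_max_right _ _).trans hd
  have : NeZero d := ⟨by omega⟩
  set n := ⌈(2 : ℝ) ^ ((Real.logb 2 (2 / Real.sqrt 3) + 1) * d)⌉₊ with hn
  have h3 := hd₁ d hd1 n (Nat.le_ceil _)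
  have h4 : (Measure.pi fun _ : Fin n => sig d).real {x | ¬ ∃ I : Finset (Fin n), Kis x I ∧
        c * ((d : ℝ) ^ (3 / 2 : ℝ) * (2 / Real.sqrt 3) ^ d) ≤ I.card} < 1 := by
    refine h3.trans_lt ?_
    rw [Real.rpow_neg (by norm_num)]
    exact inv_lt_one_of_one_lt₀ (by linarith)
  obtain ⟨x, hx⟩ : ∃ x : Fin n → Sph d, x ∉ {x | ¬ ∃ I : Finset (Fin n), Kis x I ∧
        c * ((d : ℝ) ^ (3 / 2 : ℝ) * (2 / Real.sqrt 3) ^ d) ≤ I.card} := by
    by_contra hcon
    have : {x | ¬ ∃ I : Finset (Fin n), Kis x I ∧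
        c * ((d : ℝ) ^ (3 / 2 : ℝ) * (2 / Real.sqrt 3) ^ d) ≤ I.card} = univ :=
      eq_univ_of_forall fun x => by_contra fun hx => hcon ⟨x, hx⟩
    rw [this] at h4
    simp at h4
  rw [Set.mem_ofPred_eq, not_not] at hx
  obtain ⟨I, hI, hIc⟩ := hx
  have h5 : (I.card : ℝ) ≤ tau d := by exact_mod_cast kis_le_tau hd3 hI
  refine le_trans ?_ (hIc.trans h5)
  have hd1' : (1 : ℝ) ≤ d := by exact_mod_cast (by omega : 1 ≤ d)
  have h6 : (1 : ℝ) ≤ (d : ℝ) ^ (3 / 2 : ℝ) := Real.one_le_rpow hd1' (by norm_num)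
  have h7 : (2 / Real.sqrt 3) ^ d = (2 : ℝ) ^ (cc (1 / 2) * d) := by
    rw [cc_half, Real.rpow_mul (by norm_num), Real.rpow_logb (by norm_num) (by norm_num)
      (by positivity), Real.rpow_natCast]
  have h8 : (2 : ℝ) ^ (cc (1 / 2) * d) = (2 : ℝ) ^ ((cc (1 / 2) - ε) * d) * (2 : ℝ) ^ (ε * d) := by
    rw [← Real.rpow_add (by norm_num)]; congr 1; ring
  have h9 : 1 ≤ c * (2 : ℝ) ^ (ε * d) := by
    rw [div_le_iff₀ hc] at h1
    linarith
  have h10 : 0 < (2 : ℝ) ^ ((cc (1 / 2) - ε) * d) := by positivity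
  rw [h7]
  calc (2 : ℝ) ^ ((cc (1 / 2) - ε) * d) = (2 : ℝ) ^ ((cc (1 / 2) - ε) * d) * 1 := by ring
    _ ≤ (2 : ℝ) ^ ((cc (1 / 2) - ε) * d) * (c * (2 : ℝ) ^ (ε * d)) :=
        mul_le_mul_of_nonneg_left h9 h10.le
    _ = c * (1 * (2 : ℝ) ^ (cc (1 / 2) * d)) := by rw [h8]; ring
    _ ≤ _ := by
        apply mul_le_mul_of_nonneg_left _ hc.le
        exact mul_le_mul_of_nonneg_right h6 (by positivity)

/-- **The whole scale is equivalent to Q1 with the answer `c = log₂ (2/√3)`.** The kissing number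
has the exponent of Wyner's lower bound if and only if for every `s` the largest kissing subset of
`2^(s d)` random points has at most this exponent (with probability at least `1/2`). -/
theorem wyner_iff :
    Tendsto (fun d : ℕ => Real.logb 2 (tau d) / d) atTop (𝓝 (Real.logb 2 (2 / Real.sqrt 3))) ↔
      ∀ s ε : ℝ, 0 < ε → ∀ᶠ d : ℕ in atTop,
        (Measure.pi fun _ : Fin ⌊(2 : ℝ) ^ (s * d)⌋₊ => sig d).real
          {x | ∃ I : Finset (Fin ⌊(2 : ℝ) ^ (s * d)⌋₊), Kis x I ∧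
            (2 : ℝ) ^ ((Real.logb 2 (2 / Real.sqrt 3) + ε) * d) < I.card} ≤ 1 / 2 := by
  rw [← cc_half]
  constructor
  · intro h s ε hε
    have h1 := h.eventually (gt_mem_nhds (show cc (1 / 2) < cc (1 / 2) + ε by linarith))
    filter_upwards [h1, eventually_ge_atTop 3, tau_lower one_pos] with d hd hd3 htau
    have : NeZero d := ⟨by omega⟩
    have hd0 : (0 : ℝ) < d := by exact_mod_cast (by omega : 0 < d)
    have htau0 : (0 : ℝ) < tau d := lt_of_lt_of_le (by positivity) htau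
    have h2 : (tau d : ℝ) < (2 : ℝ) ^ ((cc (1 / 2) + ε) * d) := by
      rw [div_lt_iff₀ hd0, Real.logb_lt_iff_lt_rpow (by norm_num) htau0] at hd
      exact hd
    have h3 : {x : Fin ⌊(2 : ℝ) ^ (s * d)⌋₊ → Sph d | ∃ I : Finset (Fin ⌊(2 : ℝ) ^ (s * d)⌋₊),
        Kis x I ∧ (2 : ℝ) ^ ((cc (1 / 2) + ε) * d) < I.card} = ∅ := by
      rw [Set.eq_empty_iff_forall_notMem]
      rintro x ⟨I, hI, hIc⟩
      have h4 : (I.card : ℝ) ≤ tau d := by exact_mod_cast kis_le_tau hd3 hI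
      linarith
    rw [h3]
    simp
  · intro h
    rw [tendsto_order]
    constructor
    · intro a ha
      filter_upwards [tau_lower (show 0 < (cc (1 / 2) - a) / 2 by linarith),
        eventually_ge_atTop 1] with d hd hd1
      have hd0 : (0 : ℝ) < d := by exact_mod_cast hd1
      have htau0 : (0 : ℝ) < tau d := lt_of_lt_of_le (by positivity) hd
      rw [lt_div_iff₀ hd0, Real.lt_logb_iff_rpow_lt (by norm_num) htau0]
      refine lt_of_lt_of_le ?_ hd
      apply Real.rpow_lt_rpow_of_exponent_lt (by norm_num)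
      nlinarith
    · intro b hb
      set ε := (b - cc (1 / 2)) / 3 with hε
      have hε0 : 0 < ε := by rw [hε]; linarith
      obtain ⟨s₁, hs₁⟩ := all_densities hε0
      obtain ⟨d₀, hd₀3, hd₀⟩ := hs₁ (max s₁ 0) (le_max_left _ _)
      filter_upwards [h (max s₁ 0 + 1) ε hε0, eventually_ge_atTop d₀, eventually_ge_atTop 3,
        tau_lower one_pos, const_le_rpow (C := 3) one_pos] with d hd1 hd2 hd3 htau hd4
      have : NeZero d := ⟨by omega⟩
      have hd0 : (0 : ℝ) < d := by exact_mod_cast (by omega : 0 < d)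
      have htau0 : (0 : ℝ) < tau d := lt_of_lt_of_le (by positivity) htau
      set n := ⌊(2 : ℝ) ^ ((max s₁ 0 + 1) * d)⌋₊ with hn
      rw [one_mul] at hd4
      have hnn : (2 : ℝ) ^ (max s₁ 0 * d) ≤ n := by
        have h1 : (2 : ℝ) ^ ((max s₁ 0 + 1) * d) - 1 < n := by
          have := Nat.lt_floor_add_one ((2 : ℝ) ^ ((max s₁ 0 + 1) * (d : ℝ)))
          rw [← hn] at this
          linarith
        have h2 : (2 : ℝ) ^ ((max s₁ 0 + 1) * d) = (2 : ℝ) ^ (max s₁ 0 * d) * (2 : ℝ) ^ (d : ℝ) := by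
          rw [← Real.rpow_add (by norm_num)]; congr 1; ring
        have h3 : (1 : ℝ) ≤ (2 : ℝ) ^ (max s₁ 0 * d) :=
          Real.one_le_rpow (by norm_num) (by positivity)
        nlinarith
      have h5 := hd₀ d hd2 n hnn
      have h6 : (2 : ℝ) ^ (-(d : ℝ)) ≤ 1 / 3 := by
        rw [Real.rpow_neg (by norm_num), ← one_div]
        exact one_div_le_one_div_of_le (by norm_num) hd4
      obtain ⟨x, hx⟩ : ∃ x : Fin n → Sph d, x ∉ {x | ∃ I : Finset (Fin n), Kis x I ∧
          (2 : ℝ) ^ ((cc (1 / 2) + ε) * d) < I.card} ∪ {x | ¬ ∃ I : Finset (Fin n), Kis x I ∧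
          (2 : ℝ) ^ (-(ε * d)) * tau d ≤ I.card} := by
        by_contra hcon
        have h7 := eq_univ_of_forall fun x => by_contra fun hx => hcon ⟨x, hx⟩
        have h8 : (Measure.pi fun _ : Fin n => sig d).real ({x | ∃ I : Finset (Fin n), Kis x I ∧
          (2 : ℝ) ^ ((cc (1 / 2) + ε) * d) < I.card} ∪ {x | ¬ ∃ I : Finset (Fin n), Kis x I ∧
          (2 : ℝ) ^ (-(ε * d)) * tau d ≤ I.card}) ≤ 1 / 2 + 1 / 3 :=
          (measureReal_union_le _ _).trans (add_le_add hd1 (h5.trans h6))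
        rw [h7] at h8
        norm_num at h8
      rw [mem_union, not_or] at hx
      obtain ⟨hx1, hx2⟩ := hx
      rw [Set.mem_ofPred_eq] at hx1
      rw [Set.mem_ofPred_eq, not_not] at hx2
      obtain ⟨I, hI, hIc⟩ := hx2
      have h9 : (I.card : ℝ) ≤ (2 : ℝ) ^ ((cc (1 / 2) + ε) * d) := by
        by_contra hlt
        exact hx1 ⟨I, hI, not_le.1 hlt⟩
      have h10 : (tau d : ℝ) ≤ (2 : ℝ) ^ ((cc (1 / 2) + 2 * ε) * d) := by
        have h11 := hIc.trans h9
        have h12 : (2 : ℝ) ^ ((cc (1 / 2) + ε) * d) =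
            (2 : ℝ) ^ (-(ε * d)) * (2 : ℝ) ^ ((cc (1 / 2) + 2 * ε) * d) := by
          rw [← Real.rpow_add (by norm_num)]; congr 1; ring
        rw [h12] at h11
        exact le_of_mul_le_mul_left h11 (by positivity)
      rw [div_lt_iff₀ hd0, Real.logb_lt_iff_lt_rpow (by norm_num) htau0]
      refine lt_of_le_of_lt h10 ?_
      apply Real.rpow_lt_rpow_of_exponent_lt (by norm_num)
      have : cc (1 / 2) + 2 * ε < b := by rw [hε]; linarith
      exact mul_lt_mul_of_pos_right this hd0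

end Pool.Agent.Helper84.RK
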