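import Pool.Agent.Helper49.EJ.Asymp

/-!
The upper bound for the measure of the cap of angular radius 60 degrees.
-/

set_option autoImplicit false

open MeasureTheory Set Filter Topology

namespace Pool.Agent.Helper84.RK

open Pool.Agent.Helper47.KP Pool.Agent.Helper49.EJ

variable {d : ℕ}

lemma int_wt_ge {D : ℕ} (hD : 1 ≤ D) : 1 / (2 * Real.sqrt D) ≤ ∫ t in (-1 : ℝ)..1, wt D t := by
  have hD' : (1 : ℝ) ≤ D := by exact_mod_cast hD
  set r : ℝ := 1 / Real.sqrt D with hr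
  have hsD : 1 ≤ Real.sqrt D := by
    rw [show (1 : ℝ) = Real.sqrt 1 by simp]
    exact Real.sqrt_le_sqrt hD'
  have hr0 : 0 < r := by positivity
  have hr1 : r ≤ 1 := by rw [hr, div_le_one (by positivity)]; exact hsD
  have hr2 : D * r ^ 2 = 1 := by
    rw [hr, div_pow, Real.sq_sqrt (by positivity)]; field_simp
  have hi : ∀ a b : ℝ, IntervalIntegrable (wt D) volume a b :=
    fun a b => (continuous_wt D).intervalIntegrable a b
  -- on `[0, r]` the weight is at least `1 - D t²`, integrate on `[0,r/1]`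
  have h1 : ∀ t ∈ Icc (0 : ℝ) r, 1 - D * t ^ 2 ≤ wt D t := by
    intro t ht
    have ht1 : t ^ 2 ≤ 1 := by nlinarith [ht.1, ht.2]
    have hb := one_add_mul_le_pow (a := -t ^ 2) (by linarith) D
    have hs : 1 - t ^ 2 ≤ Real.sqrt (1 - t ^ 2) := by
      apply Real.le_sqrt_of_sq_le
      nlinarith [sq_nonneg t]
    calc 1 - D * t ^ 2 = 1 + (D : ℝ) * -t ^ 2 := by ring
      _ ≤ (1 + -t ^ 2) ^ D := hb
      _ = (1 - t ^ 2) ^ D := by ring
      _ ≤ wt D t := pow_le_pow_left₀ (by linarith) hs D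
  have h2 : ∫ t in (0 : ℝ)..r, (1 - D * t ^ 2) ≤ ∫ t in (0 : ℝ)..r, wt D t := by
    apply intervalIntegral.integral_mono_on hr0.le
    · exact (by fun_prop : Continuous fun t : ℝ => 1 - D * t ^ 2).intervalIntegrable _ _
    · exact hi _ _
    · exact h1
  have h3 : ∫ t in (0 : ℝ)..r, (1 - D * t ^ 2) = 2 / 3 * r := by
    rw [intervalIntegral.integral_sub intervalIntegrable_const
      ((by fun_prop : Continuous fun t : ℝ => D * t ^ 2).intervalIntegrable _ _),
      intervalIntegral.integral_const_mul, integral_pow]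
    simp only [intervalIntegral.integral_const, smul_eq_mul]
    push_cast
    linear_combination (-(r / 3)) * hr2
  rw [← intervalIntegral.integral_add_adjacent_intervals (hi (-1) 0) (hi 0 1),
    ← intervalIntegral.integral_add_adjacent_intervals (hi 0 r) (hi r 1)]
  have h4 : 0 ≤ ∫ t in (-1 : ℝ)..0, wt D t :=
    intervalIntegral.integral_nonneg (by norm_num) fun t _ => wt_nonneg D t
  have h5 : 0 ≤ ∫ t in r..1, wt D t :=
    intervalIntegral.integral_nonneg hr1 fun t _ => wt_nonneg D t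
  have h6 : 1 / (2 * Real.sqrt D) ≤ 2 / 3 * r := by
    rw [hr, mul_comm 2, ← div_div]
    have : 0 < 1 / Real.sqrt D := by positivity
    linarith
  linarith

lemma int_cap_le {D : ℕ} (hD : 1 ≤ D) :
    ∫ t in (1 / 2 : ℝ)..1, wt D t ≤ 3 / (2 * D) * (Real.sqrt 3 / 2) ^ D := by
  have hD' : (1 : ℝ) ≤ D := by exact_mod_cast hD
  have h1 : ∀ t ∈ Icc (1 / 2 : ℝ) 1, wt D t ≤
      (Real.sqrt 3 / 2) ^ D * Real.exp (-(2 * D / 3) * (t - 1 / 2)) := by
    intro t ht
    have e1 : 1 - t ^ 2 ≤ 3 / 4 * Real.exp (-(4 / 3) * (t - 1 / 2)) := by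
      have := Real.add_one_le_exp (-(4 / 3) * (t - 1 / 2))
      nlinarith [sq_nonneg (t - 1 / 2)]
    have e2 : Real.sqrt (1 - t ^ 2) ≤ Real.sqrt 3 / 2 * Real.exp (-(2 / 3) * (t - 1 / 2)) := by
      rw [← sqrt_34, show Real.exp (-(2 / 3) * (t - 1 / 2)) =
        Real.sqrt (Real.exp (-(4 / 3) * (t - 1 / 2))) by
          rw [← Real.exp_half]; congr 1; ring, ← Real.sqrt_mul (by norm_num)]
      exact Real.sqrt_le_sqrt e1
    calc wt D t ≤ (Real.sqrt 3 / 2 * Real.exp (-(2 / 3) * (t - 1 / 2))) ^ D :=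
          pow_le_pow_left₀ (Real.sqrt_nonneg _) e2 D
      _ = _ := by
          rw [mul_pow, ← Real.exp_nat_mul]
          congr 2; ring
  have hc : Continuous fun t : ℝ => Real.exp (-(2 * D / 3) * (t - 1 / 2)) := by fun_prop
  have h2 : ∫ t in (1 / 2 : ℝ)..1, wt D t ≤
      ∫ t in (1 / 2 : ℝ)..1, (Real.sqrt 3 / 2) ^ D * Real.exp (-(2 * D / 3) * (t - 1 / 2)) := by
    apply intervalIntegral.integral_mono_on (by norm_num)
      ((continuous_wt D).intervalIntegrable _ _)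
      ((continuous_const.mul hc).intervalIntegrable _ _)
    exact h1
  rw [intervalIntegral.integral_const_mul] at h2
  have h3 : ∫ t in (1 / 2 : ℝ)..1, Real.exp (-(2 * D / 3) * (t - 1 / 2)) ≤ 3 / (2 * D) := by
    have h4 := intervalIntegral.integral_eq_sub_of_hasDerivAt (a := (1 / 2 : ℝ)) (b := 1)
      (f := fun t : ℝ => -(3 / (2 * D)) * Real.exp (-(2 * D / 3) * (t - 1 / 2)))
      (f' := fun t : ℝ => Real.exp (-(2 * D / 3) * (t - 1 / 2)))
      (by
        intro t _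
        have g1 : HasDerivAt (fun t : ℝ => -(2 * D / 3 : ℝ) * (t - 1 / 2)) (-(2 * D / 3)) t := by
          have := ((hasDerivAt_id t).sub_const (1 / 2 : ℝ)).const_mul (-(2 * D / 3 : ℝ))
          simpa using this
        have g2 := (g1.exp).const_mul (-(3 / (2 * (D : ℝ))))
        refine g2.congr_deriv ?_
        field_simp)
      (hc.intervalIntegrable _ _)
    rw [h4]
    have : 0 < Real.exp (-(2 * D / 3) * ((1 : ℝ) - 1 / 2)) := Real.exp_pos _
    have h5 : 0 < 3 / (2 * (D : ℝ)) := by positivity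
    simp only [sub_self, mul_zero, Real.exp_zero]
    nlinarith
  calc ∫ t in (1 / 2 : ℝ)..1, wt D t ≤ _ := h2
    _ ≤ (Real.sqrt 3 / 2) ^ D * (3 / (2 * D)) := mul_le_mul_of_nonneg_left h3 (by positivity)
    _ = _ := by ring

/-- upper bound for the measure of the cap -/
lemma pc_le (hd : 4 ≤ d) : pc d ≤ 10 * (Real.sqrt 3 / 2) ^ d / Real.sqrt d := by
  obtain ⟨D, rfl⟩ : ∃ D, d = D + 3 := ⟨d - 3, by omega⟩
  have hD : 1 ≤ D := by omega
  have hD' : (1 : ℝ) ≤ D := by exact_mod_cast hD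
  rw [pc_eq]
  simp only [Nat.add_sub_cancel]
  have h1 := int_cap_le hD
  have h2 := int_wt_ge hD
  have hs := s32_pos
  have hsD0 : 0 < Real.sqrt D := Real.sqrt_pos.2 (by linarith)
  have h3 : cst (D + 3) ≤ 2 * Real.sqrt D := by
    unfold cst
    simp only [Nat.add_sub_cancel]
    have := inv_anti₀ (by positivity) h2
    rwa [one_div, inv_inv] at this
  have h0 : 0 ≤ ∫ t in (1 / 2 : ℝ)..1, wt D t :=
    intervalIntegral.integral_nonneg (by norm_num) fun t _ => wt_nonneg D t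
  have h4 : cst (D + 3) * ∫ t in (1 / 2 : ℝ)..1, wt D t ≤
      2 * Real.sqrt D * (3 / (2 * D) * (Real.sqrt 3 / 2) ^ D) :=
    mul_le_mul h3 h1 h0 (by positivity)
  refine h4.trans ?_
  have hsD : Real.sqrt D * Real.sqrt D = D := Real.mul_self_sqrt (by positivity)
  have e : 2 * Real.sqrt D * (3 / (2 * D) * (Real.sqrt 3 / 2) ^ D) =
      3 * (Real.sqrt 3 / 2) ^ D / Real.sqrt D := by
    rw [eq_div_iff hsD0.ne']
    calc 2 * Real.sqrt D * (3 / (2 * D) * (Real.sqrt 3 / 2) ^ D) * Real.sqrt D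
        = (Real.sqrt D * Real.sqrt D) * (3 / D * (Real.sqrt 3 / 2) ^ D) := by ring
      _ = _ := by rw [hsD]; field_simp
  rw [e]
  have e3 : (Real.sqrt 3 / 2) ^ (D + 3) = (Real.sqrt 3 / 2) ^ D * (3 * Real.sqrt 3 / 8) := by
    rw [pow_add]
    congr 1
    have : Real.sqrt 3 ^ 2 = 3 := Real.sq_sqrt (by norm_num)
    rw [div_pow, show Real.sqrt 3 ^ 3 = Real.sqrt 3 ^ 2 * Real.sqrt 3 by ring, this]
    norm_num
  have hs3 : (17 / 10 : ℝ) ≤ Real.sqrt 3 := by
    apply Real.le_sqrt_of_sq_le; norm_num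
  have h5 : Real.sqrt ((D + 3 : ℕ) : ℝ) ≤ 2 * Real.sqrt D := by
    rw [show (2 : ℝ) * Real.sqrt D = Real.sqrt (2 ^ 2 * D) by
      rw [Real.sqrt_mul (by norm_num), Real.sqrt_sq (by norm_num)]]
    apply Real.sqrt_le_sqrt
    push_cast
    linarith
  have hd0 : 0 < Real.sqrt ((D + 3 : ℕ) : ℝ) := Real.sqrt_pos.2 (by positivity)
  rw [div_le_div_iff₀ hsD0 hd0, e3]
  have hpow : 0 < (Real.sqrt 3 / 2) ^ D := by positivity
  calc 3 * (Real.sqrt 3 / 2) ^ D * Real.sqrt ((D + 3 : ℕ) : ℝ)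
      ≤ 3 * (Real.sqrt 3 / 2) ^ D * (2 * Real.sqrt D) := by gcongr
    _ = (Real.sqrt 3 / 2) ^ D * Real.sqrt D * 6 := by ring
    _ ≤ (Real.sqrt 3 / 2) ^ D * Real.sqrt D * (10 * (3 * Real.sqrt 3 / 8)) := by
        apply mul_le_mul_of_nonneg_left _ (by positivity)
        linarith
    _ = _ := by ring

end Pool.Agent.Helper84.RK
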