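import Pool.Agent.Helper47.KP.Final

/-!
Exponents of the Gegenbauer norms and of the measure of a spherical cap, and positivity of the
Gegenbauer polynomials of low degree.
-/

set_option autoImplicit false

open MeasureTheory Set Metric Polynomial Filter Topology
open scoped RealInnerProductSpace ENNReal

namespace Pool.Agent.Helper84.RK

open Pool.Agent.Helper47.KP

/-- the exponent of the dimension of harmonic polynomials of degree `k d` in dimension `d` -/
noncomputable def gg (k : ℝ) : ℝ := (1 + k) * Real.logb 2 (1 + k) - k * Real.logb 2 k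

/-- Wyner's exponent for the cosine `s` -/
noncomputable def cc (s : ℝ) : ℝ := -(1 / 2) * Real.logb 2 (1 - s ^ 2)

/-- Gegenbauer polynomials of degree at most `κ d` are positive to the right of `s`. -/
lemma PP_pos {s κ : ℝ} (hs0 : 0 < s) (hκ : 0 < κ) (hk : (1 + 2 * κ) ^ 2 * (1 - s ^ 2) < 1) :
    ∃ d₀ : ℕ, 3 ≤ d₀ ∧ ∀ d : ℕ, d₀ ≤ d → ∀ j : ℕ, (j : ℝ) ≤ κ * d → ∀ t : ℝ, s ≤ t →
      0 < (PP d j).eval t := by
  set β : ℝ := (1 + 2 * κ) * s / (2 * (1 + κ)) with hβ
  have hβ0 : 0 < β := by positivity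
  have hβs : β < s := by
    rw [hβ, div_lt_iff₀ (by positivity)]
    nlinarith
  -- the linear function is positive at both ends
  set m0 : ℝ := s * β - β ^ 2 with hm0
  have hm0p : 0 < m0 := by
    rw [hm0]; nlinarith
  set m1 : ℝ := (2 * κ + 1) * (s * β) - κ - β ^ 2 * (κ + 1) with hm1
  have hm1p : 0 < m1 := by
    have e : m1 = ((1 + 2 * κ) ^ 2 * s ^ 2 - 4 * κ * (1 + κ)) / (4 * (1 + κ)) := by
      rw [hm1, hβ]; field_simp; ring
    rw [e]
    apply div_pos _ (by positivity)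
    nlinarith
  set m := min m0 m1 with hm
  have hmp : 0 < m := lt_min hm0p hm1p
  obtain ⟨d₁, hd₁⟩ := exists_nat_ge (1 / m)
  refine ⟨max d₁ 3, le_max_right _ _, fun d hd => ?_⟩
  have hd3 : 3 ≤ d := (le_max_right _ _).trans hd
  have hdm : 1 ≤ (d : ℝ) * m := by
    have h1 : (d₁ : ℝ) ≤ d := by exact_mod_cast (le_max_left _ _).trans hd
    have h2 : 1 / m ≤ (d : ℝ) := hd₁.trans h1
    rwa [div_le_iff₀ hmp] at h2
  have hd0 : (3 : ℝ) ≤ d := by exact_mod_cast hd3
  have key : ∀ j : ℕ, (j : ℝ) ≤ κ * d → ∀ t : ℝ, s ≤ t → 0 < (PP d j).eval t ∧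
      β * (PP d j).eval t ≤ (PP d (j + 1)).eval t := by
    intro j
    induction j with
    | zero =>
      intro _ t ht
      simp only [PP_zero, zero_add, PP_one, eval_one, eval_X]
      exact ⟨one_pos, by linarith⟩
    | succ j ih =>
      intro hj t ht
      push_cast at hj
      obtain ⟨h1, h2⟩ := ih (by linarith) t ht
      have h3 : 0 < (PP d (j + 1)).eval t := lt_of_lt_of_le (by positivity) h2
      refine ⟨h3, ?_⟩
      have hr := PP_rec hd3 j t
      have hj0 : (0 : ℝ) ≤ j := Nat.cast_nonneg j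
      have hden : 0 < (j : ℝ) + d - 1 := by linarith
      -- `β (2j+d) t - (j+1) - β² (j+d-1) ≥ 0`
      have hlin : 0 ≤ (2 * j + d) * (s * β) - (j + 1) - β ^ 2 * (j + d - 1) := by
        have hx : (j : ℝ) ≤ κ * d := by linarith
        have e1 : (d : ℝ) * m ≤ (2 * j + d) * (s * β) - j - β ^ 2 * (j + d) := by
          have h4 : κ * ((2 * j + d) * (s * β) - j - β ^ 2 * (j + d)) =
              (κ * d - j) * m0 + j * m1 := by
            rw [hm0, hm1]; ring
          have h5 : κ * (d * m) ≤ (κ * d - j) * m0 + j * m1 := by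
            have h6 : m ≤ m0 := min_le_left _ _
            have h7 : m ≤ m1 := min_le_right _ _
            nlinarith
          rw [← h4] at h5
          exact le_of_mul_le_mul_left h5 hκ
        nlinarith [sq_nonneg β]
      have h4 : ((j : ℝ) + d - 1) * (β * (β * (PP d (j + 1)).eval t)) ≤
          ((j : ℝ) + d - 1) * (β * (PP d (j + 2)).eval t) := by
        have e2 : ((j : ℝ) + d - 1) * (β * (PP d (j + 2)).eval t) =
            β * ((2 * j + d) * (t * (PP d (j + 1)).eval t)) - (j + 1) * (β * (PP d j).eval t) := by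
          rw [← mul_left_comm, hr]; ring
        rw [e2]
        have h5 : ((j : ℝ) + 1) * (β * (PP d j).eval t) ≤ (j + 1) * (PP d (j + 1)).eval t :=
          mul_le_mul_of_nonneg_left h2 (by positivity)
        have h6 : β * ((2 * j + d) * (s * (PP d (j + 1)).eval t)) ≤
            β * ((2 * j + d) * (t * (PP d (j + 1)).eval t)) := by
          gcongr
        nlinarith [mul_nonneg hlin h3.le]
      have h5 := le_of_mul_le_mul_left h4 hden
      exact le_of_mul_le_mul_left h5 hβ0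
  exact fun j hj t ht => (key j hj t ht).1

lemma log_choose_lower' (n D : ℕ) (hn : 1 ≤ n) (hD : 1 ≤ D) :
    ((n : ℝ) + D) * Real.log (n + D) - n * Real.log n - D * Real.log D - 2 - Real.log n -
      Real.log D ≤ Real.log ((Nat.choose (n + D) n : ℕ) : ℝ) := by
  have e1 : ((Nat.choose (n + D) n : ℕ) : ℝ) =
      ((n + D).factorial : ℝ) / (n.factorial * D.factorial) := by
    have h := Nat.choose_mul_factorial_mul_factorial (show n ≤ n + D by omega)
    rw [Nat.add_sub_cancel_left] at h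
    rw [eq_div_iff (by positivity), ← mul_assoc]
    exact_mod_cast h
  rw [e1, Real.log_div (by positivity) (by positivity), Real.log_mul (by positivity)
    (by positivity)]
  have a1 := log_fact_lower (n + D)
  have a2 := log_fact_upper n hn
  have a3 := log_fact_upper D hD
  push_cast at a1
  linarith

lemma tendsto_log_div : Tendsto (fun d : ℕ => Real.log d / d) atTop (𝓝 0) := by
  have h := Real.isLittleO_log_id_atTop.tendsto_div_nhds_zero
  exact h.comp tendsto_natCast_atTop_atTop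

/-- the exponent of the norms of the Gegenbauer polynomials -/
lemma nrm_exp {κ η : ℝ} (hκ : 0 < κ) (hη : 0 < η) : ∃ d₀ : ℕ, 3 ≤ d₀ ∧ ∀ (d : ℕ) [NeZero d],
    d₀ ≤ d → ∀ j : ℕ, κ * d ≤ (j : ℝ) + 1 → nrm d j ≤ (2 : ℝ) ^ (-((gg κ - η) * d)) := by
  have hl2 : 0 < Real.log 2 := Real.log_pos (by norm_num)
  set n : ℕ → ℕ := fun d => ⌈κ * d⌉₊ - 1 with hn
  have hdtop : Tendsto (fun d : ℕ => (d : ℝ)) atTop atTop := tendsto_natCast_atTop_atTop
  have hinv : Tendsto (fun d : ℕ => (1 : ℝ) / d) atTop (𝓝 0) := tendsto_one_div_atTop_nhds_zero_nat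
  -- bounds for n
  have hn1 : ∀ d : ℕ, (n d : ℝ) ≤ κ * d := by
    intro d
    have h1 : (⌈κ * (d : ℝ)⌉₊ : ℝ) < κ * d + 1 := Nat.ceil_lt_add_one (by positivity)
    have h2 : (n d : ℝ) ≤ max ((⌈κ * (d : ℝ)⌉₊ : ℝ) - 1) 0 := by
      simp only [hn]
      rcases Nat.eq_zero_or_pos ⌈κ * (d : ℝ)⌉₊ with h | h
      · rw [h]; simp
      · rw [Nat.cast_sub h]; simp
    refine h2.trans (max_le (by linarith) (by positivity))
  have hn2 : ∀ d : ℕ, κ * d - 1 ≤ (n d : ℝ) := by
    intro d
    have h1 : κ * (d : ℝ) ≤ ⌈κ * (d : ℝ)⌉₊ := Nat.le_ceil _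
    have h2 : (⌈κ * (d : ℝ)⌉₊ : ℝ) ≤ n d + 1 := by
      have : ⌈κ * (d : ℝ)⌉₊ ≤ n d + 1 := by simp only [hn]; omega
      exact_mod_cast this
    linarith
  have hu : Tendsto (fun d : ℕ => (n d : ℝ) / d) atTop (𝓝 κ) := by
    have hlo : Tendsto (fun d : ℕ => κ - 1 / (d : ℝ)) atTop (𝓝 κ) := by
      simpa using (tendsto_const_nhds (x := κ)).sub hinv
    apply tendsto_of_tendsto_of_tendsto_of_le_of_le' hlo tendsto_const_nhds
    · filter_upwards [eventually_ge_atTop 1] with d hd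
      have hd' : (0 : ℝ) < d := by exact_mod_cast hd
      rw [le_div_iff₀ hd', sub_mul, one_div_mul_cancel hd'.ne']
      exact hn2 d
    · filter_upwards [eventually_ge_atTop 1] with d hd
      have hd' : (0 : ℝ) < d := by exact_mod_cast hd
      rw [div_le_iff₀ hd']
      exact hn1 d
  have hv : Tendsto (fun d : ℕ => ((d : ℝ) - 3) / d) atTop (𝓝 1) := by
    have h1 : Tendsto (fun d : ℕ => 1 - 3 * (1 / (d : ℝ))) atTop (𝓝 (1 - 3 * 0)) :=
      tendsto_const_nhds.sub (hinv.const_mul 3)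
    rw [mul_zero, sub_zero] at h1
    refine h1.congr' ?_
    filter_upwards [eventually_ge_atTop 1] with d hd
    have hd' : (0 : ℝ) < d := by exact_mod_cast hd
    field_simp
  have hml := Real.continuous_mul_log
  have hF : Tendsto (fun d : ℕ => ((n d : ℝ) / d + ((d : ℝ) - 3) / d) *
      Real.log ((n d : ℝ) / d + ((d : ℝ) - 3) / d) - (n d : ℝ) / d * Real.log ((n d : ℝ) / d) -
      ((d : ℝ) - 3) / d * Real.log (((d : ℝ) - 3) / d) - 2 * (1 / (d : ℝ)) -
      2 * (Real.log d / d)) atTop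
      (𝓝 ((κ + 1) * Real.log (κ + 1) - κ * Real.log κ - 1 * Real.log 1 - 2 * 0 - 2 * 0)) := by
    refine Tendsto.sub (Tendsto.sub (Tendsto.sub (Tendsto.sub ?_ ?_) ?_) ?_) ?_
    · exact (hml.tendsto _).comp (hu.add hv)
    · exact (hml.tendsto _).comp hu
    · exact (hml.tendsto _).comp hv
    · exact hinv.const_mul 2
    · exact tendsto_log_div.const_mul 2
  simp only [Real.log_one, mul_zero, sub_zero] at hF
  have hev := hF.eventually (lt_mem_nhds (show (κ + 1) * Real.log (κ + 1) - κ * Real.log κ -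
    η * Real.log 2 < (κ + 1) * Real.log (κ + 1) - κ * Real.log κ by
      have := mul_pos hη hl2
      linarith))
  have hnpos : ∀ᶠ d : ℕ in atTop, (2 : ℝ) ≤ κ * d :=
    (Tendsto.const_mul_atTop hκ hdtop).eventually_ge_atTop 2
  have hndle : ∀ᶠ d : ℕ in atTop, Real.log (n d) ≤ Real.log d + Real.log (κ + 1) := by
    filter_upwards [hnpos, eventually_ge_atTop 1] with d h2 hd
    have hd' : (0 : ℝ) < d := by exact_mod_cast hd
    have h3 : (0 : ℝ) < n d := by have := hn2 d; linarith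
    rw [← Real.log_mul hd'.ne' (by positivity)]
    apply Real.log_le_log h3
    have := hn1 d
    nlinarith
  -- absorb the constant
  have hcon : Tendsto (fun d : ℕ => Real.log (κ + 1) * (1 / (d : ℝ))) atTop (𝓝 0) := by
    simpa using hinv.const_mul (Real.log (κ + 1))
  have hF2 := hF.sub hcon
  rw [sub_zero] at hF2
  have hev2 := hF2.eventually (lt_mem_nhds (show (κ + 1) * Real.log (κ + 1) - κ * Real.log κ -
    η * Real.log 2 < (κ + 1) * Real.log (κ + 1) - κ * Real.log κ by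
      have := mul_pos hη hl2
      linarith))
  obtain ⟨d₁, hd₁⟩ := eventually_atTop.1 (hev2.and (hnpos.and hndle))
  refine ⟨max d₁ 4, by omega, fun d _ hd j hj => ?_⟩
  obtain ⟨h1, h2, h3⟩ := hd₁ d ((le_max_left _ _).trans hd)
  have hd4 : 4 ≤ d := (le_max_right _ _).trans hd
  have hd0 : (0 : ℝ) < d := by
    have : (4 : ℝ) ≤ d := by exact_mod_cast hd4
    linarith
  have hD : 1 ≤ d - 3 := by omega
  have hDc : ((d - 3 : ℕ) : ℝ) = (d : ℝ) - 3 := by rw [Nat.cast_sub (by omega)]; norm_num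
  have hnn : 1 ≤ n d := by
    have h5 := hn2 d
    have h6 : (1 : ℝ) ≤ n d := by linarith
    exact_mod_cast h6
  have hnj : n d ≤ j := by
    have h5 : ⌈κ * (d : ℝ)⌉₊ ≤ j + 1 := by
      apply Nat.ceil_le.2
      push_cast
      exact hj
    simp only [hn]; omega
  have hle := nrm_le (show 3 ≤ d by omega) hnj
  refine hle.trans ?_
  have hcpos : (0 : ℝ) < (Nat.choose (n d + (d - 3)) (n d) : ℝ) := by
    exact_mod_cast Nat.choose_pos (by omega)
  rw [one_div, Real.rpow_neg (by norm_num)]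
  apply inv_anti₀ (by positivity)
  rw [← Real.log_le_log_iff (by positivity) hcpos, Real.log_rpow (by norm_num)]
  refine le_trans ?_ (log_choose_lower' (n d) (d - 3) hnn hD)
  rw [hDc]
  have hn0 : (0 : ℝ) < n d := by exact_mod_cast hnn
  have hD0 : (0 : ℝ) < (d : ℝ) - 3 := by rw [← hDc]; exact_mod_cast hD
  have l1 : Real.log ((n d : ℝ) / d + ((d : ℝ) - 3) / d) = Real.log (n d + (d - 3)) - Real.log d := by
    rw [← add_div, Real.log_div (by positivity) hd0.ne']
  have l2 : Real.log ((n d : ℝ) / d) = Real.log (n d) - Real.log d :=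
    Real.log_div hn0.ne' hd0.ne'
  have l3 : Real.log (((d : ℝ) - 3) / d) = Real.log (d - 3) - Real.log d :=
    Real.log_div hD0.ne' hd0.ne'
  have l4 : Real.log ((d : ℝ) - 3) ≤ Real.log d := Real.log_le_log hD0 (by linarith)
  rw [l1, l2, l3] at h1
  have e : (gg κ - η) * d * Real.log 2 =
      d * ((κ + 1) * Real.log (κ + 1) - κ * Real.log κ - η * Real.log 2) := by
    unfold gg Real.logb
    rw [add_comm 1 κ]
    field_simp
  rw [e]
  have h5 := mul_le_mul_of_nonneg_left h1.le hd0.le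
  refine h5.trans ?_
  have e2 : (d : ℝ) * (((n d : ℝ) / d + (d - 3) / d) * (Real.log (n d + (d - 3)) - Real.log d) -
      n d / d * (Real.log (n d) - Real.log d) - (d - 3) / d * (Real.log (d - 3) - Real.log d) -
      2 * (1 / d) - 2 * (Real.log d / d) - Real.log (κ + 1) * (1 / d)) =
      (n d + (d - 3)) * Real.log (n d + (d - 3)) - n d * Real.log (n d) -
      (d - 3) * Real.log (d - 3) - 2 - 2 * Real.log d - Real.log (κ + 1) := by
    field_simp
    ring
  rw [e2]
  linarith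

/-- the measure of a cap -/
lemma cap_eq (d : ℕ) (s : ℝ) (hs1 : s ≤ 1) (hs0 : -1 ≤ s) :
    (den d).real (Ioi s) = cst d * ∫ t in s..1, wt (d - 3) t := by
  have h1 : (den d).real (Ioi s) = ∫ t, (Ioi s).indicator (fun _ => (1 : ℝ)) t ∂(den d) := by
    rw [integral_indicator_const _ measurableSet_Ioi]; simp
  rw [h1, integral_den]
  congr 1
  have h2 : ∀ t, (Ioi s).indicator (fun _ => (1 : ℝ)) t * wt (d - 3) t =
      (Ioi s).indicator (wt (d - 3)) t := by
    intro t
    by_cases ht : t ∈ Ioi s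
    · rw [indicator_of_mem ht, indicator_of_mem ht, one_mul]
    · rw [indicator_of_notMem ht, indicator_of_notMem ht, zero_mul]
  simp only [h2]
  rw [intervalIntegral.integral_of_le (by linarith), intervalIntegral.integral_of_le hs1,
    setIntegral_indicator measurableSet_Ioi]
  congr 2
  ext t
  simp only [mem_inter_iff, mem_Ioc, mem_Ioi]
  constructor
  · rintro ⟨⟨_, h4⟩, h5⟩; exact ⟨h5, h4⟩
  · rintro ⟨h4, h5⟩; exact ⟨⟨by linarith, h5⟩, h4⟩

lemma wt_anti (D : ℕ) {s t : ℝ} (hs : 0 ≤ s) (hst : s ≤ t) : wt D t ≤ wt D s := by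
  unfold wt
  apply pow_le_pow_left₀ (Real.sqrt_nonneg _)
  apply Real.sqrt_le_sqrt
  nlinarith

lemma pow_cc {s : ℝ} (hs1 : s < 1) (hs0 : -1 < s) (d : ℕ) :
    Real.sqrt (1 - s ^ 2) ^ d = (2 : ℝ) ^ (-(cc s * d)) := by
  have h1 : 0 < 1 - s ^ 2 := by nlinarith
  have h2 : Real.sqrt (1 - s ^ 2) = (2 : ℝ) ^ (-(cc s)) := by
    unfold cc
    rw [show -(-(1 / 2) * Real.logb 2 (1 - s ^ 2)) = Real.logb 2 (1 - s ^ 2) * (1 / 2) by ring,
      Real.rpow_mul (by norm_num), Real.rpow_logb (by norm_num) (by norm_num) h1,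
      Real.sqrt_eq_rpow]
  rw [h2, ← Real.rpow_natCast, ← Real.rpow_mul (by norm_num), neg_mul]

lemma int_wt_lower (D : ℕ) {s s' : ℝ} (hs0 : 0 ≤ s) (h : s ≤ s') (h1 : s' ≤ 1) :
    (s' - s) * wt D s' ≤ ∫ t in s..1, wt D t := by
  have hi : ∀ a b, IntervalIntegrable (wt D) volume a b := fun a b =>
    (continuous_wt D).intervalIntegrable _ _
  rw [← intervalIntegral.integral_add_adjacent_intervals (hi s s') (hi s' 1)]
  have h2 : ∫ _t in s..s', wt D s' ≤ ∫ t in s..s', wt D t := by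
    apply intervalIntegral.integral_mono_on h intervalIntegrable_const (hi _ _)
    intro t ht
    exact wt_anti D (hs0.trans ht.1) ht.2
  rw [intervalIntegral.integral_const, smul_eq_mul] at h2
  have h3 : 0 ≤ ∫ t in s'..1, wt D t := by
    apply intervalIntegral.integral_nonneg h1
    intro t _; exact wt_nonneg _ _
  linarith

lemma int_wt_upper (D : ℕ) {s : ℝ} (hs0 : 0 ≤ s) (h1 : s ≤ 1) :
    ∫ t in s..1, wt D t ≤ wt D s := by
  have h2 : ∫ t in s..1, wt D t ≤ ∫ _t in s..1, wt D s := by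
    apply intervalIntegral.integral_mono_on h1 ((continuous_wt D).intervalIntegrable _ _)
      intervalIntegrable_const
    intro t ht
    exact wt_anti D hs0 ht.1
  rw [intervalIntegral.integral_const, smul_eq_mul] at h2
  have := wt_nonneg D s
  nlinarith

lemma cst_lower (d : ℕ) : 1 / 2 ≤ cst d := by
  unfold cst
  rw [one_div]
  apply inv_anti₀ (integral_wt_pos _)
  have h2 : ∫ t in (-1 : ℝ)..1, wt (d - 3) t ≤ ∫ _t in (-1 : ℝ)..1, (1 : ℝ) := by
    apply intervalIntegral.integral_mono_on (by norm_num)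
      ((continuous_wt _).intervalIntegrable _ _) intervalIntegrable_const
    intro t _
    exact wt_le_one _ _
  rw [intervalIntegral.integral_const, smul_eq_mul] at h2
  linarith

lemma cst_upper (d : ℕ) {r : ℝ} (hr0 : 0 < r) (hr1 : r < 1) :
    cst d ≤ (r * wt (d - 3) r)⁻¹ := by
  unfold cst
  have hpos : 0 < wt (d - 3) r := by
    unfold wt
    have : 0 < 1 - r ^ 2 := by nlinarith
    positivity
  apply inv_anti₀ (by positivity)
  have hi : ∀ a b, IntervalIntegrable (wt (d - 3)) volume a b := fun a b =>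
    (continuous_wt _).intervalIntegrable _ _
  rw [← intervalIntegral.integral_add_adjacent_intervals (hi (-1) 0) (hi 0 1)]
  have h1 := int_wt_lower (d - 3) le_rfl hr0.le hr1.le
  rw [sub_zero] at h1
  have h3 : 0 ≤ ∫ t in (-1 : ℝ)..0, wt (d - 3) t := by
    apply intervalIntegral.integral_nonneg (by norm_num)
    intro t _; exact wt_nonneg _ _
  linarith

lemma cc_nonneg {s : ℝ} (hs0 : 0 ≤ s) (hs1 : s < 1) : 0 ≤ cc s := by
  unfold cc
  have : Real.logb 2 (1 - s ^ 2) ≤ 0 := Real.logb_nonpos (by norm_num) (by nlinarith) (by nlinarith)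
  linarith

lemma continuousAt_cc {s : ℝ} (hs0 : 0 ≤ s) (hs1 : s < 1) : ContinuousAt cc s := by
  unfold cc
  have h : (1 - s ^ 2) ≠ 0 := by nlinarith
  apply ContinuousAt.mul continuousAt_const
  unfold Real.logb
  apply ContinuousAt.div_const
  exact ContinuousAt.log (by fun_prop) h

/-- eventually a constant is below an exponential -/
lemma const_le_rpow {C η : ℝ} (hη : 0 < η) : ∀ᶠ d : ℕ in atTop, C ≤ (2 : ℝ) ^ (η * d) := by
  have h1 : Tendsto (fun d : ℕ => ((2 : ℝ) ^ η) ^ d) atTop atTop :=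
    tendsto_pow_atTop_atTop_of_one_lt (Real.one_lt_rpow (by norm_num) hη)
  filter_upwards [h1.eventually_ge_atTop C] with d hd
  rwa [Real.rpow_mul (by norm_num), Real.rpow_natCast]

/-- the exponent of the measure of a cap -/
lemma cap_exp {s η : ℝ} (hs0 : 0 ≤ s) (hs1 : s < 1) (hη : 0 < η) : ∃ d₀ : ℕ, 3 ≤ d₀ ∧
    ∀ d : ℕ, d₀ ≤ d → (2 : ℝ) ^ (-((cc s + η) * d)) ≤ (den d).real (Ioi s) ∧
      (den d).real (Ioi s) ≤ (2 : ℝ) ^ (-((cc s - η) * d)) := by
  -- a point s' slightly to the right of s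
  obtain ⟨s', hs', hs'1, hcs⟩ : ∃ s', s < s' ∧ s' < 1 ∧ cc s' < cc s + η / 2 := by
    have h1 := (continuousAt_cc hs0 hs1).eventually (gt_mem_nhds
      (show cc s < cc s + η / 2 by linarith))
    obtain ⟨e, he, h2⟩ := Metric.eventually_nhds_iff.1 h1
    refine ⟨s + min (e / 2) ((1 - s) / 2), ?_, ?_, ?_⟩
    · have : 0 < min (e / 2) ((1 - s) / 2) := lt_min (by linarith) (by linarith)
      linarith
    · have : min (e / 2) ((1 - s) / 2) ≤ (1 - s) / 2 := min_le_right _ _
      linarith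
    · apply h2
      rw [Real.dist_eq, add_sub_cancel_left, abs_of_pos (lt_min (by linarith) (by linarith))]
      have : min (e / 2) ((1 - s) / 2) ≤ e / 2 := min_le_left _ _
      linarith
  obtain ⟨r, hr0, hr1, hcr⟩ : ∃ r, 0 < r ∧ r < 1 ∧ cc r < η / 2 := by
    have h1 := (continuousAt_cc le_rfl one_pos).eventually (gt_mem_nhds
      (show cc 0 < η / 2 by unfold cc; simp; linarith))
    obtain ⟨e, he, h2⟩ := Metric.eventually_nhds_iff.1 h1
    refine ⟨min (e / 2) (1 / 2), lt_min (by linarith) (by norm_num), ?_, ?_⟩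
    · have : min (e / 2) (1 / 2 : ℝ) ≤ 1 / 2 := min_le_right _ _
      linarith
    · apply h2
      rw [Real.dist_eq, sub_zero, abs_of_pos (lt_min (by linarith) (by norm_num))]
      have : min (e / 2) (1 / 2 : ℝ) ≤ e / 2 := min_le_left _ _
      linarith
  have hev1 := const_le_rpow (C := 2 / (s' - s)) (η := η / 2) (by positivity)
  have hev2 := const_le_rpow (C := (r * (1 - s ^ 2) ^ 2)⁻¹) (η := η / 2) (by positivity)
  obtain ⟨d₁, hd₁⟩ := eventually_atTop.1 (hev1.and hev2)
  refine ⟨max d₁ 3, le_max_right _ _, fun d hd => ?_⟩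
  obtain ⟨hC1, hC2⟩ := hd₁ d ((le_max_left _ _).trans hd)
  have hd3 : 3 ≤ d := (le_max_right _ _).trans hd
  rw [cap_eq d s hs1.le (by linarith)]
  have hwt : ∀ {x : ℝ}, 0 ≤ x → x < 1 → Real.sqrt (1 - x ^ 2) ^ d ≤ wt (d - 3) x := by
    intro x hx0 hx1
    unfold wt
    apply pow_le_pow_of_le_one (Real.sqrt_nonneg _) _ (by omega)
    rw [Real.sqrt_le_one]
    nlinarith
  constructor
  · -- lower bound
    have h1 := int_wt_lower (d - 3) hs0 hs'.le hs'1.le
    have h2 := hwt (hs0.trans hs'.le) hs'1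
    rw [pow_cc hs'1 (by linarith)] at h2
    have h3 := cst_lower d
    have h4 : (2 : ℝ) ^ (-((cc s + η / 2) * d)) ≤ (2 : ℝ) ^ (-(cc s' * d)) := by
      apply Real.rpow_le_rpow_of_exponent_le (by norm_num)
      have hd0 : (0 : ℝ) ≤ d := Nat.cast_nonneg d
      nlinarith
    have hss : 0 < s' - s := by linarith
    have h5 : 1 / 2 * ((s' - s) * (2 : ℝ) ^ (-((cc s + η / 2) * d))) ≤
        cst d * ∫ t in s..1, wt (d - 3) t := by
      apply mul_le_mul h3 _ (by positivity) (cst_pos d).le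
      refine le_trans ?_ h1
      apply mul_le_mul_of_nonneg_left (h4.trans h2) hss.le
    refine le_trans ?_ h5
    have e : (2 : ℝ) ^ (-((cc s + η / 2) * d)) =
        (2 : ℝ) ^ (-((cc s + η) * d)) * (2 : ℝ) ^ (η / 2 * d) := by
      rw [← Real.rpow_add (by norm_num)]; congr 1; ring
    rw [e]
    have h6 : 0 < (2 : ℝ) ^ (-((cc s + η) * d)) := by positivity
    rw [div_le_iff₀ hss] at hC1
    nlinarith
  · have h1 := int_wt_upper (d - 3) hs0 hs1.le
    have h2 := cst_upper d hr0 hr1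
    have h3 := hwt hr0.le hr1
    rw [pow_cc hr1 (by linarith)] at h3
    have hcr' : (2 : ℝ) ^ (-(η / 2 * d)) ≤ (2 : ℝ) ^ (-(cc r * d)) := by
      apply Real.rpow_le_rpow_of_exponent_le (by norm_num)
      have hd0 : (0 : ℝ) ≤ d := Nat.cast_nonneg d
      nlinarith
    have hss : 0 < 1 - s ^ 2 := by nlinarith
    -- wt (d-3) s ≤ (sqrt(1-s²))^d / (1-s²)^2
    have h4 : wt (d - 3) s ≤ (2 : ℝ) ^ (-(cc s * d)) * ((1 - s ^ 2) ^ 2)⁻¹ := by
      rw [← pow_cc hs1 (by linarith), le_mul_inv_iff₀ (by positivity)]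
      unfold wt
      have e1 : (1 - s ^ 2) ^ 2 = Real.sqrt (1 - s ^ 2) ^ 4 := by
        rw [show 4 = 2 * 2 by norm_num, pow_mul, Real.sq_sqrt hss.le]
      rw [e1, ← pow_add]
      apply pow_le_pow_of_le_one (Real.sqrt_nonneg _) _ (by omega)
      rw [Real.sqrt_le_one]
      nlinarith
    have h5 : cst d ≤ r⁻¹ * (2 : ℝ) ^ (η / 2 * d) := by
      refine h2.trans ?_
      rw [mul_inv]
      apply mul_le_mul_of_nonneg_left _ (by positivity)
      rw [← inv_inv ((2 : ℝ) ^ (η / 2 * (d : ℝ))), ← Real.rpow_neg (by norm_num)]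
      exact inv_anti₀ (by positivity) (hcr'.trans h3)
    calc cst d * ∫ t in s..1, wt (d - 3) t
        ≤ (r⁻¹ * (2 : ℝ) ^ (η / 2 * d)) * ((2 : ℝ) ^ (-(cc s * d)) * ((1 - s ^ 2) ^ 2)⁻¹) := by
          apply mul_le_mul h5 (h1.trans h4) _ (by positivity)
          apply intervalIntegral.integral_nonneg hs1.le
          intro t _; exact wt_nonneg _ _
      _ = (2 : ℝ) ^ (η / 2 * d) * (2 : ℝ) ^ (-(cc s * d)) * (r * (1 - s ^ 2) ^ 2)⁻¹ := by
          rw [mul_inv]; ring
      _ ≤ (2 : ℝ) ^ (η / 2 * d) * (2 : ℝ) ^ (-(cc s * d)) * (2 : ℝ) ^ (η / 2 * d) := by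
          apply mul_le_mul_of_nonneg_left hC2 (by positivity)
      _ = (2 : ℝ) ^ (-((cc s - η) * d)) := by
          rw [← Real.rpow_add (by norm_num), ← Real.rpow_add (by norm_num)]
          congr 1; ring

end Pool.Agent.Helper84.RK
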