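import Mathlib

/-!
Triangle-free graphs have large independent sets (Ajtai–Komlós–Szemerédi, in the form of the
argument of Alon and Spencer with a uniformly random independent set).
-/

set_option autoImplicit false

open Finset

namespace Pool.Agent.Helper84.RK

variable {ι : Type*} [DecidableEq ι]

lemma sum_card_powerset (X : Finset ι) :
    2 * ∑ Y ∈ X.powerset, (Y.card : ℝ) = X.card * 2 ^ X.card := by
  induction X using Finset.induction_on with
  | empty => simp
  | insert a X ha ih =>
    rw [sum_powerset_insert ha, card_insert_of_notMem ha]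
    have h1 : ∀ Y ∈ X.powerset, ((insert a Y).card : ℝ) = Y.card + 1 := by
      intro Y hY
      rw [card_insert_of_notMem (fun h => ha (mem_powerset.1 hY h))]
      push_cast; rfl
    rw [sum_congr rfl h1, sum_add_distrib, sum_const, card_powerset, nsmul_eq_mul]
    push_cast
    rw [pow_succ]
    linear_combination 2 * ih

/-- the numerical inequality -/
lemma num_ineq {D : ℝ} (hD : 1 ≤ D) (x : ℕ) :
    Real.logb 2 D / 8 * (1 + 2 ^ x) ≤ D + x * 2 ^ x / 2 := by
  set L := Real.logb 2 D with hL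
  have hD0 : 0 < D := by linarith
  have hL0 : 0 ≤ L := Real.logb_nonneg (by norm_num) hD
  have hDL : D = (2 : ℝ) ^ L := by
    rw [hL, Real.rpow_logb (by norm_num) (by norm_num) hD0]
  have hX1 : (1 : ℝ) ≤ 2 ^ x := one_le_pow₀ (by norm_num)
  rcases le_or_gt (3 * L / 8) x with h | h
  · rcases Nat.eq_zero_or_pos x with rfl | hx
    · have : L = 0 := by
        simp only [Nat.cast_zero] at h
        linarith
      rw [this]
      simp
      linarith
    · have hX2 : (2 : ℝ) ≤ 2 ^ x := by
        calc (2 : ℝ) = 2 ^ 1 := by norm_num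
          _ ≤ 2 ^ x := pow_le_pow_right₀ (by norm_num) hx
      have h1 : (3 * L / 8) * 2 ^ x ≤ x * 2 ^ x := mul_le_mul_of_nonneg_right h (by positivity)
      nlinarith
  · have hxX : (2 : ℝ) ^ x ≤ (2 : ℝ) ^ (3 * L / 8) := by
      rw [← Real.rpow_natCast]
      exact Real.rpow_le_rpow_of_exponent_le (by norm_num) h.le
    have h2 : L / 4 ≤ (2 : ℝ) ^ (5 * L / 8) := by
      have h3 : (5 * L / 8) * Real.log 2 + 1 ≤ Real.exp ((5 * L / 8) * Real.log 2) :=
        Real.add_one_le_exp _
      have h4 : (2 : ℝ) ^ (5 * L / 8) = Real.exp ((5 * L / 8) * Real.log 2) := by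
        rw [Real.rpow_def_of_pos (by norm_num)]; ring_nf
      rw [h4]
      have h5 := Real.log_two_gt_d9
      nlinarith
    have h3 : D = (2 : ℝ) ^ (3 * L / 8) * (2 : ℝ) ^ (5 * L / 8) := by
      rw [← Real.rpow_add (by norm_num), hDL]
      congr 1; ring
    have h6 : (1 : ℝ) ≤ (2 : ℝ) ^ (3 * L / 8) := Real.one_le_rpow (by norm_num) (by positivity)
    have h7 : L / 8 * (1 + 2 ^ x) ≤ L / 8 * (2 * (2 : ℝ) ^ (3 * L / 8)) := by
      apply mul_le_mul_of_nonneg_left _ (by positivity)
      linarith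
    have h8 : L / 8 * (2 * (2 : ℝ) ^ (3 * L / 8)) ≤ D := by
      rw [h3]
      calc L / 8 * (2 * (2 : ℝ) ^ (3 * L / 8)) = (2 : ℝ) ^ (3 * L / 8) * (L / 4) := by ring
        _ ≤ _ := mul_le_mul_of_nonneg_left h2 (by positivity)
    have h9 : (0 : ℝ) ≤ x * 2 ^ x / 2 := by positivity
    linarith

section

variable (R : ι → ι → Prop) [DecidableRel R]

/-- the independent subsets of `M` -/
def Ind (M : Finset ι) : Finset (Finset ι) :=
  M.powerset.filter (fun W => ∀ a ∈ W, ∀ b ∈ W, ¬ R a b)

variable {R}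

lemma mem_Ind {M W : Finset ι} : W ∈ Ind R M ↔ W ⊆ M ∧ ∀ a ∈ W, ∀ b ∈ W, ¬ R a b := by
  simp [Ind]

/-- the set of neighbours -/
def Nb (R : ι → ι → Prop) [DecidableRel R] (M : Finset ι) (v : ι) : Finset ι :=
  M.filter (fun u => R v u)

lemma mem_Nb {M : Finset ι} {v u : ι} : u ∈ Nb R M v ↔ u ∈ M ∧ R v u := by
  simp [Nb]

/-- the description of a fibre -/
lemma fiber_eq (hsym : ∀ a b, R a b → R b a) (hirr : ∀ a, ¬ R a a) {M : Finset ι}
    (htri : ∀ a ∈ M, ∀ b ∈ M, ∀ c ∈ M, R a b → R a c → ¬ R b c) {v : ι} (hv : v ∈ M)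
    {W₀ : Finset ι} (hW₀ : W₀ ∈ Ind R M) :
    (Ind R M).filter (fun W => W \ insert v (Nb R M v) = W₀ \ insert v (Nb R M v)) =
      insert (insert v (W₀ \ insert v (Nb R M v)))
        (((Nb R M v).filter (fun u => ∀ a ∈ W₀ \ insert v (Nb R M v), ¬ R a u)).powerset.image
          (fun Y => (W₀ \ insert v (Nb R M v)) ∪ Y)) := by
  obtain ⟨hWM, hWI⟩ := mem_Ind.1 hW₀
  set N := Nb R M v with hN
  set S := W₀ \ insert v N with hS
  have hSM : S ⊆ M := fun a ha => hWM (mem_sdiff.1 ha).1
  have hSI : ∀ a ∈ S, ∀ b ∈ S, ¬ R a b := fun a ha b hb =>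
    hWI a (mem_sdiff.1 ha).1 b (mem_sdiff.1 hb).1
  have hSv : ∀ a ∈ S, ¬ R v a := by
    intro a ha h
    have : a ∈ insert v N := mem_insert_of_mem (mem_Nb.2 ⟨hSM ha, h⟩)
    exact (mem_sdiff.1 ha).2 this
  have hvS : v ∉ S := fun h => (mem_sdiff.1 h).2 (mem_insert_self _ _)
  ext W
  simp only [mem_filter, mem_insert, mem_image, mem_powerset]
  constructor
  · rintro ⟨hW, hWS⟩
    obtain ⟨hWM', hWI'⟩ := mem_Ind.1 hW
    by_cases hvW : v ∈ W
    · left
      ext a
      constructor
      · intro ha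
        by_cases hav : a = v
        · rw [hav]; exact mem_insert_self _ _
        · apply mem_insert_of_mem
          rw [← hWS, mem_sdiff, mem_insert, not_or]
          refine ⟨ha, hav, fun h => ?_⟩
          exact hWI' v hvW a ha (mem_Nb.1 h).2
      · intro ha
        rcases mem_insert.1 ha with rfl | ha
        · exact hvW
        · rw [← hWS] at ha
          exact (mem_sdiff.1 ha).1
    · right
      refine ⟨W ∩ N, ?_, ?_⟩
      · intro u hu
        rw [mem_inter] at hu
        rw [mem_filter]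
        refine ⟨hu.2, fun a ha => ?_⟩
        rw [← hWS] at ha
        exact hWI' a (mem_sdiff.1 ha).1 u hu.1
      · ext a
        rw [mem_union, ← hWS, mem_sdiff, mem_inter, mem_insert]
        constructor
        · rintro (h | h)
          · exact h.1
          · exact h.1
        · intro ha
          by_cases haN : a ∈ N
          · exact Or.inr ⟨ha, haN⟩
          · refine Or.inl ⟨ha, ?_⟩
            rintro (h | h)
            · rw [h] at ha; exact hvW ha
            · exact haN h
  · rintro (rfl | ⟨Y, hY, rfl⟩)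
    · constructor
      · rw [mem_Ind]
        constructor
        · exact insert_subset hv hSM
        · intro a ha b hb
          rcases mem_insert.1 ha with rfl | ha
          · rcases mem_insert.1 hb with rfl | hb
            · exact hirr _
            · exact hSv b hb
          · rcases mem_insert.1 hb with rfl | hb
            · exact fun h => hSv a ha (hsym _ _ h)
            · exact hSI a ha b hb
      · ext a
        rw [mem_sdiff, mem_insert, mem_insert]
        constructor
        · rintro ⟨h1 | h1, h2⟩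
          · exact absurd (Or.inl h1) h2
          · exact h1
        · intro ha
          exact ⟨Or.inr ha, fun h => (mem_sdiff.1 ha).2 (mem_insert.2 h)⟩
    · have hYN : ∀ u ∈ Y, u ∈ N := fun u hu => (mem_filter.1 (hY hu)).1
      have hYS : ∀ u ∈ Y, ∀ a ∈ S, ¬ R a u := fun u hu => (mem_filter.1 (hY hu)).2
      constructor
      · rw [mem_Ind]
        constructor
        · exact union_subset hSM fun u hu => (mem_Nb.1 (hYN u hu)).1
        · intro a ha b hb
          rcases mem_union.1 ha with ha | ha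
          · rcases mem_union.1 hb with hb | hb
            · exact hSI a ha b hb
            · exact hYS b hb a ha
          · rcases mem_union.1 hb with hb | hb
            · exact fun h => hYS a ha b hb (hsym _ _ h)
            · have h1 := mem_Nb.1 (hYN a ha)
              have h2 := mem_Nb.1 (hYN b hb)
              exact htri v hv a h1.1 b h2.1 h1.2 h2.2
      · ext a
        rw [mem_sdiff, mem_union]
        constructor
        · rintro ⟨h1 | h1, h2⟩
          · exact h1
          · exact absurd (mem_insert_of_mem (hYN a h1)) h2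
        · intro ha
          exact ⟨Or.inl ha, (mem_sdiff.1 ha).2⟩

/-- the inequality for one fibre -/
lemma fiber_ineq (hsym : ∀ a b, R a b → R b a) (hirr : ∀ a, ¬ R a a) {M : Finset ι}
    (htri : ∀ a ∈ M, ∀ b ∈ M, ∀ c ∈ M, R a b → R a c → ¬ R b c) {v : ι} (hv : v ∈ M)
    {D : ℝ} (hD : 1 ≤ D) {W₀ : Finset ι} (hW₀ : W₀ ∈ Ind R M) :
    Real.logb 2 D / 8 * ((Ind R M).filter
      (fun W => W \ insert v (Nb R M v) = W₀ \ insert v (Nb R M v))).card ≤
    ∑ W ∈ (Ind R M).filter (fun W => W \ insert v (Nb R M v) = W₀ \ insert v (Nb R M v)),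
      ((if v ∈ W then D else 0) + ((W ∩ Nb R M v).card : ℝ)) := by
  rw [fiber_eq hsym hirr htri hv hW₀]
  set N := Nb R M v with hN
  set S := W₀ \ insert v N with hS
  set X := N.filter (fun u => ∀ a ∈ S, ¬ R a u) with hX
  have hvS : v ∉ S := fun h => (mem_sdiff.1 h).2 (mem_insert_self _ _)
  have hvN : v ∉ N := fun h => hirr v (mem_Nb.1 h).2
  have hSN : ∀ a ∈ S, a ∉ N := fun a ha h => (mem_sdiff.1 ha).2 (mem_insert_of_mem h)
  have hnot : insert v S ∉ X.powerset.image (fun Y => S ∪ Y) := by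
    intro h
    obtain ⟨Y, hY, hYe⟩ := mem_image.1 h
    have : v ∈ S ∪ Y := by rw [hYe]; exact mem_insert_self _ _
    rcases mem_union.1 this with h1 | h1
    · exact hvS h1
    · exact hvN (mem_filter.1 (mem_powerset.1 hY h1)).1
  have hinj : Set.InjOn (fun Y => S ∪ Y) (X.powerset : Set (Finset ι)) := by
    intro Y hY Z hZ h
    have hY' : Y ⊆ X := mem_powerset.1 (mem_coe.1 hY)
    have hZ' : Z ⊆ X := mem_powerset.1 (mem_coe.1 hZ)
    have h' : S ∪ Y = S ∪ Z := h
    ext a
    constructor
    · intro ha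
      have h1 : a ∈ S ∪ Z := by rw [← h']; exact mem_union_right _ ha
      rcases mem_union.1 h1 with h2 | h2
      · exact absurd (mem_filter.1 (hY' ha)).1 (hSN a h2)
      · exact h2
    · intro ha
      have h1 : a ∈ S ∪ Y := by rw [h']; exact mem_union_right _ ha
      rcases mem_union.1 h1 with h2 | h2
      · exact absurd (mem_filter.1 (hZ' ha)).1 (hSN a h2)
      · exact h2
  rw [sum_insert hnot, card_insert_of_notMem hnot, card_image_of_injOn hinj, card_powerset,
    sum_image hinj]
  have h1 : ((insert v S) ∩ N) = ∅ := by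
    ext a
    simp only [mem_inter, mem_insert, notMem_empty, iff_false, not_and]
    rintro (rfl | h)
    · exact hvN
    · exact hSN a h
  have h2 : ∀ Y ∈ X.powerset, ((if v ∈ S ∪ Y then D else 0) + (((S ∪ Y) ∩ N).card : ℝ)) =
      (Y.card : ℝ) := by
    intro Y hY
    have hYX := mem_powerset.1 hY
    have hvY : v ∉ S ∪ Y := by
      intro h
      rcases mem_union.1 h with h | h
      · exact hvS h
      · exact hvN (mem_filter.1 (hYX h)).1
    rw [if_neg hvY, zero_add]
    congr 2
    ext a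
    simp only [mem_inter, mem_union]
    constructor
    · rintro ⟨h | h, h'⟩
      · exact absurd h' (hSN a h)
      · exact h
    · intro h
      exact ⟨Or.inr h, (mem_filter.1 (hYX h)).1⟩
  rw [sum_congr rfl h2, h1, if_pos (mem_insert_self _ _)]
  have h3 := sum_card_powerset X
  have h4 := num_ineq hD X.card
  simp only [card_empty, Nat.cast_zero, add_zero]
  push_cast
  have h5 : ∑ Y ∈ X.powerset, (Y.card : ℝ) = X.card * 2 ^ X.card / 2 := by linarith
  rw [h5, add_comm ((2 : ℝ) ^ X.card) 1]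
  exact h4

/-- **Ajtai–Komlós–Szemerédi.** A triangle-free graph on `M` with maximal degree at most `D` has an
independent set with at least `|M| log₂ D / (16 D)` elements. -/
theorem exists_indep (hsym : ∀ a b, R a b → R b a) (hirr : ∀ a, ¬ R a a) {M : Finset ι}
    (htri : ∀ a ∈ M, ∀ b ∈ M, ∀ c ∈ M, R a b → R a c → ¬ R b c)
    {D : ℝ} (hD : 1 ≤ D) (hdeg : ∀ v ∈ M, ((Nb R M v).card : ℝ) ≤ D) :
    ∃ W ⊆ M, (∀ a ∈ W, ∀ b ∈ W, ¬ R a b) ∧
      (M.card : ℝ) * (Real.logb 2 D / (16 * D)) ≤ W.card := by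
  have hne : (Ind R M).Nonempty := ⟨∅, mem_Ind.2 ⟨empty_subset _, by simp⟩⟩
  -- sum over all independent sets
  have h1 : ∀ v ∈ M, Real.logb 2 D / 8 * (Ind R M).card ≤
      ∑ W ∈ Ind R M, ((if v ∈ W then D else 0) + ((W ∩ Nb R M v).card : ℝ)) := by
    intro v hv
    have e1 := card_eq_sum_card_image (fun W => W \ insert v (Nb R M v)) (Ind R M)
    have e2 := sum_fiberwise_of_maps_to (s := Ind R M)
      (t := (Ind R M).image (fun W => W \ insert v (Nb R M v)))
      (g := fun W => W \ insert v (Nb R M v)) (fun W hW => mem_image_of_mem _ hW)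
      (fun W => ((if v ∈ W then D else 0) + ((W ∩ Nb R M v).card : ℝ)))
    rw [← e2, e1]
    push_cast
    rw [mul_sum]
    apply sum_le_sum
    intro S hS
    obtain ⟨W₀, hW₀, rfl⟩ := mem_image.1 hS
    exact fiber_ineq hsym hirr htri hv hD hW₀
  have h2 : ∀ W ∈ Ind R M, ∑ v ∈ M, ((if v ∈ W then D else 0) + ((W ∩ Nb R M v).card : ℝ)) ≤
      2 * D * W.card := by
    intro W hW
    obtain ⟨hWM, hWI⟩ := mem_Ind.1 hW
    rw [sum_add_distrib]
    have a1 : ∑ v ∈ M, (if v ∈ W then D else 0) = D * W.card := by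
      rw [← sum_filter, sum_const, nsmul_eq_mul, mul_comm]
      congr 2
      apply congrArg
      ext a
      simp only [mem_filter]
      exact ⟨fun h => h.2, fun h => ⟨hWM h, h⟩⟩
    have a2 : ∑ v ∈ M, ((W ∩ Nb R M v).card : ℝ) = ∑ u ∈ W, ((Nb R M u).card : ℝ) := by
      have b1 : ∀ v ∈ M, ((W ∩ Nb R M v).card : ℝ) = ∑ u ∈ W, if R v u then (1 : ℝ) else 0 := by
        intro v _
        rw [← sum_filter, sum_const, nsmul_eq_mul, mul_one]
        congr 2
        ext u
        simp only [mem_inter, mem_Nb, mem_filter]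
        exact ⟨fun h => ⟨h.1, h.2.2⟩, fun h => ⟨h.1, hWM h.1, h.2⟩⟩
      have b2 : ∀ u ∈ W, ((Nb R M u).card : ℝ) = ∑ v ∈ M, if R v u then (1 : ℝ) else 0 := by
        intro u _
        rw [← sum_filter, sum_const, nsmul_eq_mul, mul_one]
        congr 2
        ext w
        simp only [mem_Nb, mem_filter]
        exact ⟨fun h => ⟨h.1, hsym _ _ h.2⟩, fun h => ⟨h.1, hsym _ _ h.2⟩⟩
      rw [sum_congr rfl b1, sum_congr rfl b2, sum_comm]
    have a3 : ∑ u ∈ W, ((Nb R M u).card : ℝ) ≤ D * W.card := by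
      calc ∑ u ∈ W, ((Nb R M u).card : ℝ) ≤ ∑ _u ∈ W, D := by
            apply sum_le_sum
            intro u hu
            exact hdeg u (hWM hu)
        _ = D * W.card := by rw [sum_const, nsmul_eq_mul, mul_comm]
    rw [a1, a2]
    linarith
  by_contra hcon
  push Not at hcon
  have h3 : ∀ W ∈ Ind R M, 2 * D * (W.card : ℝ) <
      2 * D * ((M.card : ℝ) * (Real.logb 2 D / (16 * D))) := by
    intro W hW
    obtain ⟨hWM, hWI⟩ := mem_Ind.1 hW
    exact mul_lt_mul_of_pos_left (hcon W hWM hWI) (by linarith)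
  have h4 : ∑ W ∈ Ind R M, ∑ v ∈ M, ((if v ∈ W then D else 0) + ((W ∩ Nb R M v).card : ℝ)) <
      ∑ _W ∈ Ind R M, 2 * D * ((M.card : ℝ) * (Real.logb 2 D / (16 * D))) := by
    apply sum_lt_sum_of_nonempty hne
    intro W hW
    exact (h2 W hW).trans_lt (h3 W hW)
  rw [sum_comm, sum_const, nsmul_eq_mul] at h4
  have h5 : ∑ _v ∈ M, Real.logb 2 D / 8 * ((Ind R M).card : ℝ) ≤
      ∑ v ∈ M, ∑ W ∈ Ind R M, ((if v ∈ W then D else 0) + ((W ∩ Nb R M v).card : ℝ)) :=
    sum_le_sum h1
  rw [sum_const, nsmul_eq_mul] at h5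
  have h6 := h5.trans_lt h4
  have e : ((Ind R M).card : ℝ) * (2 * D * ((M.card : ℝ) * (Real.logb 2 D / (16 * D)))) =
      (M.card : ℝ) * (Real.logb 2 D / 8 * ((Ind R M).card : ℝ)) := by
    have : D ≠ 0 := by linarith
    field_simp
    ring
  rw [e] at h6
  exact lt_irrefl _ h6

end

end Pool.Agent.Helper84.RK
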