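import Pool.Agent.Helper84.RK.Num
import Pool.Agent.Helper84.RK.Tri
import Pool.Agent.Helper84.RK.Cap

/-!
The lower bound: among many random points there is a kissing subset with `c d^(3/2) (2/√3)^d`
elements.
-/

set_option autoImplicit false

open MeasureTheory Set Metric ProbabilityTheory Filter Topology
open scoped ENNReal RealInnerProductSpace

namespace Pool.Agent.Helper84.RK

open Pool.Agent.Helper47.KP Pool.Agent.Helper49.EJ

/-- two different indices are adjacent if the points have an angle less than 60 degrees -/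
def Ad {d m : ℕ} (x : Fin m → Sph d) (a b : Fin m) : Prop :=
  a ≠ b ∧ 1 / 2 < ⟪(x a : EE d), (x b : EE d)⟫

open Classical in
/-- the good subset of the random points: no triangle, bounded degree -/
def Good {d m : ℕ} (x : Fin m → Sph d) (G : Finset (Fin m)) : Prop :=
  (m : ℝ) / 2 ≤ G.card ∧
    (∀ a ∈ G, ∀ b ∈ G, ∀ c ∈ G, Ad x a b → Ad x a c → ¬ Ad x b c) ∧
    ∀ a ∈ G, ((G.filter (fun b => Ad x a b)).card : ℝ) ≤ 4 * m * (den d).real (Ioi (1 / 2))

/-- the probabilistic input -/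
def GoodSubset : Prop := ∀ γ : ℝ, 0 < γ → γ ≤ 1 / 100 → ∃ δ : ℝ, 0 < δ ∧ ∃ d₀ : ℕ, 4 ≤ d₀ ∧
  ∀ (d : ℕ) [NeZero d], d₀ ≤ d → ∀ m : ℕ, (2 : ℝ) ^ ((cc (1 / 2) + γ / 2) * d) ≤ m →
    (m : ℝ) ≤ (2 : ℝ) ^ ((cc (1 / 2) + γ) * d) →
    (Measure.pi fun _ : Fin m => sig d).real {x | ¬ ∃ G : Finset (Fin m), Good x G} ≤
      (2 : ℝ) ^ (-(δ * d))

/-- a kissing subset of the points `x i` -/
def Kis {d n : ℕ} (x : Fin n → Sph d) (I : Finset (Fin n)) : Prop :=
  ∀ i ∈ I, ∀ j ∈ I, i ≠ j → ⟪(x i : EE d), (x j : EE d)⟫ ≤ 1 / 2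

lemma pc_eq_real (d : ℕ) : (den d).real (Ioi (1 / 2)) = pc d := by
  unfold pc
  have h1 : ∀ t, capf t = (Ioi (1 / 2 : ℝ)).indicator (fun _ => (1 : ℝ)) t := by
    intro t
    unfold capf
    by_cases ht : 1 / 2 < t
    · rw [if_pos ht, indicator_of_mem (show t ∈ Ioi (1 / 2 : ℝ) from ht)]
    · rw [if_neg ht, indicator_of_notMem (show t ∉ Ioi (1 / 2 : ℝ) from ht)]
  simp only [h1]
  rw [integral_indicator_const _ measurableSet_Ioi]
  simp

lemma cc_half : cc (1 / 2) = Real.logb 2 (2 / Real.sqrt 3) := by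
  unfold cc
  have h3 : Real.sqrt 3 = (3 : ℝ) ^ (1 / 2 : ℝ) := Real.sqrt_eq_rpow 3
  have h1 : (1 : ℝ) - (1 / 2) ^ 2 = 3 / 4 := by norm_num
  rw [h1, Real.logb_div (by norm_num) (by norm_num), Real.logb_div (by norm_num) (by positivity),
    h3, Real.logb_rpow_eq_mul_logb_of_pos (by norm_num),
    show (4 : ℝ) = 2 ^ (2 : ℝ) by norm_num, Real.logb_rpow (by norm_num) (by norm_num),
    Real.logb_self_eq_one (by norm_num)]
  ring

/-- from a good subset to a kissing subset -/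
lemma kis_of_good {d m : ℕ} (x : Fin m → Sph d) {G : Finset (Fin m)} (hG : Good x G) {p : ℝ}
    (hp : p = (den d).real (Ioi (1 / 2))) (hp0 : 0 < p) (hm : 0 < m) (hD : 1 ≤ 4 * m * p) :
    ∃ I : Finset (Fin m), Kis x I ∧ Real.logb 2 (4 * m * p) / (128 * p) ≤ I.card := by
  classical
  obtain ⟨h1, h2, h3⟩ := hG
  have hm0 : (0 : ℝ) < m := by exact_mod_cast hm
  obtain ⟨W, hWG, hWI, hWc⟩ := exists_indep (R := Ad x) (fun a b h => ⟨h.1.symm, by
    rw [real_inner_comm]; exact h.2⟩) (fun a h => h.1 rfl) (M := G) h2 hD (by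
    intro v hv
    rw [hp]
    refine le_trans (le_of_eq ?_) (h3 v hv)
    unfold Nb
    congr 2)
  refine ⟨W, fun i hi j hj hij => ?_, ?_⟩
  · by_contra h
    exact hWI i hi j hj ⟨hij, not_le.1 h⟩
  · refine le_trans ?_ hWc
    have hL : 0 ≤ Real.logb 2 (4 * m * p) := Real.logb_nonneg (by norm_num) hD
    calc Real.logb 2 (4 * m * p) / (128 * p) = (m : ℝ) / 2 * (Real.logb 2 (4 * m * p) /
          (16 * (4 * m * p))) := by field_simp; ring
      _ ≤ _ := mul_le_mul_of_nonneg_right h1 (by positivity)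

/-- the law of the first `m` points -/
lemma map_castLE {d : ℕ} [NeZero d] {m n : ℕ} (h : m ≤ n) :
    (Measure.pi fun _ : Fin n => sig d).map (fun x (i : Fin m) => x (Fin.castLE h i)) =
      Measure.pi fun _ : Fin m => sig d := by
  have h1 : iIndepFun (fun (i : Fin n) (ω : Fin n → Sph d) => ω i)
      (Measure.pi fun _ : Fin n => sig d) :=
    iIndepFun_pi (X := fun _ => id) (fun _ => measurable_id.aemeasurable)
  have h2 := h1.precomp (Fin.castLE_injective h)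
  have h3 := (iIndepFun_iff_map_fun_eq_pi_map (fun i : Fin m =>
    (measurable_pi_apply (Fin.castLE h i)).aemeasurable)).1 h2
  rw [h3]
  congr 1
  funext i
  exact (measurePreserving_eval (fun _ : Fin n => sig d) (Fin.castLE h i)).map_eq

lemma real_castLE {d : ℕ} [NeZero d] {m n : ℕ} (h : m ≤ n) (A : Set (Fin m → Sph d))
    (B : Set (Fin n → Sph d)) (hBA : ∀ x ∈ B, (fun i => x (Fin.castLE h i)) ∈ A) :
    (Measure.pi fun _ : Fin n => sig d).real B ≤ (Measure.pi fun _ : Fin m => sig d).real A := by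
  have hm : Measurable (fun (x : Fin n → Sph d) (i : Fin m) => x (Fin.castLE h i)) :=
    measurable_pi_lambda _ fun i => measurable_pi_apply _
  have h1 : (Measure.pi fun _ : Fin n => sig d) B ≤ (Measure.pi fun _ : Fin m => sig d) A := by
    rw [← map_castLE h]
    refine le_trans (measure_mono ?_) (Measure.le_map_apply hm.aemeasurable A)
    intro x hx
    exact hBA x hx
  exact ENNReal.toReal_mono (measure_ne_top _ _) h1

lemma Kis_castLE {d m n : ℕ} (h : m ≤ n) {x : Fin n → Sph d} {I : Finset (Fin m)}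
    (hI : Kis (fun i => x (Fin.castLE h i)) I) :
    Kis x (I.map (Fin.castLEEmb h)) := by
  intro i hi j hj hij
  obtain ⟨i', hi', rfl⟩ := Finset.mem_map.1 hi
  obtain ⟨j', hj', rfl⟩ := Finset.mem_map.1 hj
  exact hI i' hi' j' hj' (fun h' => hij (by rw [h']))

/-- **The lower bound.** -/
theorem lower_of (hB : GoodSubset) {s : ℝ} (hs : Real.logb 2 (2 / Real.sqrt 3) < s) :
    ∃ c : ℝ, 0 < c ∧ ∃ δ : ℝ, 0 < δ ∧ ∃ d₀ : ℕ, ∀ (d : ℕ) [NeZero d], d₀ ≤ d → ∀ n : ℕ,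
      (2 : ℝ) ^ (s * d) ≤ n →
      (Measure.pi fun _ : Fin n => sig d).real {x | ¬ ∃ I : Finset (Fin n), Kis x I ∧
        c * ((d : ℝ) ^ (3 / 2 : ℝ) * (2 / Real.sqrt 3) ^ d) ≤ I.card} ≤ (2 : ℝ) ^ (-(δ * d)) := by
  rw [← cc_half] at hs
  set γ : ℝ := min (1 / 100) (s - cc (1 / 2)) with hγ
  have hγ0 : 0 < γ := lt_min (by norm_num) (by linarith)
  have hγ1 : γ ≤ 1 / 100 := min_le_left _ _
  have hγ2 : γ ≤ s - cc (1 / 2) := min_le_right _ _
  obtain ⟨δ, hδ, d₁, hd₁4, hd₁⟩ := hB γ hγ0 hγ1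
  obtain ⟨d₂, hd₂3, hd₂⟩ := cap_exp (s := 1 / 2) (η := γ / 4) (by norm_num) (by norm_num)
    (by positivity)
  obtain ⟨d₃, hd₃⟩ := eventually_atTop.1 (const_le_rpow (C := 2) (η := γ / 2) (by positivity))
  refine ⟨γ / 5120, by positivity, δ, hδ, max (max d₁ d₂) d₃, ?_⟩
  intro d _ hd n hn
  have h1d : d₁ ≤ d := (le_max_left _ _).trans ((le_max_left _ _).trans hd)
  have h2d : d₂ ≤ d := (le_max_right _ _).trans ((le_max_left _ _).trans hd)
  have h3d : d₃ ≤ d := (le_max_right _ _).trans hd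
  have hd4 : 4 ≤ d := hd₁4.trans h1d
  have hd0 : (0 : ℝ) < d := by
    have : (4 : ℝ) ≤ d := by exact_mod_cast hd4
    linarith
  set U : ℝ := (2 : ℝ) ^ ((cc (1 / 2) + γ) * d) with hU
  set m := ⌊U⌋₊ with hm
  have hcc := cc_nonneg (s := 1 / 2) (by norm_num) (by norm_num)
  have hU1 : 1 ≤ U := Real.one_le_rpow (by norm_num) (by positivity)
  have hmU : (m : ℝ) ≤ U := Nat.floor_le (by positivity)
  have hmn : m ≤ n := by
    have h1 : U ≤ n := by
      refine le_trans ?_ hn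
      apply Real.rpow_le_rpow_of_exponent_le (by norm_num)
      nlinarith
    have h2 : (m : ℝ) ≤ n := hmU.trans h1
    exact_mod_cast h2
  have hmL : (2 : ℝ) ^ ((cc (1 / 2) + γ / 2) * d) ≤ m := by
    have h1 : U - 1 < m := by
      have := Nat.lt_floor_add_one U
      rw [← hm] at this
      linarith
    have h2 : U = (2 : ℝ) ^ ((cc (1 / 2) + γ / 2) * d) * (2 : ℝ) ^ (γ / 2 * d) := by
      rw [hU, ← Real.rpow_add (by norm_num)]
      congr 1; ring
    have h3 := hd₃ d h3d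
    have h4 : (1 : ℝ) ≤ (2 : ℝ) ^ ((cc (1 / 2) + γ / 2) * d) :=
      Real.one_le_rpow (by norm_num) (by positivity)
    nlinarith
  have hm0 : 0 < m := by
    have h4 : (1 : ℝ) ≤ (2 : ℝ) ^ ((cc (1 / 2) + γ / 2) * d) :=
      Real.one_le_rpow (by norm_num) (by positivity)
    have : (1 : ℝ) ≤ m := h4.trans hmL
    exact_mod_cast this
  have hm0' : (0 : ℝ) < m := by exact_mod_cast hm0
  set p := (den d).real (Ioi (1 / 2)) with hp
  have hpc : p = pc d := pc_eq_real d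
  have hp0 : 0 < p := by rw [hpc]; exact pc_pos hd4
  have hpl := (hd₂ d h2d).1
  have hpu := pc_le hd4
  -- `4 m p ≥ 2^(γ d / 4)`
  have hD : (2 : ℝ) ^ (γ / 4 * d) ≤ 4 * m * p := by
    have h1 : (2 : ℝ) ^ (γ / 4 * d) = (2 : ℝ) ^ ((cc (1 / 2) + γ / 2) * d) *
        (2 : ℝ) ^ (-((cc (1 / 2) + γ / 4) * d)) := by
      rw [← Real.rpow_add (by norm_num)]; congr 1; ring
    rw [h1]
    have h2 : (2 : ℝ) ^ ((cc (1 / 2) + γ / 2) * d) * (2 : ℝ) ^ (-((cc (1 / 2) + γ / 4) * d)) ≤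
        m * p := mul_le_mul hmL hpl (by positivity) (by positivity)
    nlinarith
  have hD1 : 1 ≤ 4 * m * p := le_trans (Real.one_le_rpow (by norm_num) (by positivity)) hD
  have hlog : γ * d / 4 ≤ Real.logb 2 (4 * m * p) := by
    rw [Real.le_logb_iff_rpow_le (by norm_num) (by linarith)]
    refine le_trans (le_of_eq ?_) hD
    congr 1; ring
  have hs3 : 0 < Real.sqrt 3 := by positivity
  -- the size
  have hsize : γ / 5120 * ((d : ℝ) ^ (3 / 2 : ℝ) * (2 / Real.sqrt 3) ^ d) ≤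
      Real.logb 2 (4 * m * p) / (128 * p) := by
    rw [le_div_iff₀ (by positivity)]
    refine le_trans ?_ hlog
    have hsd : 0 < Real.sqrt d := Real.sqrt_pos.2 hd0
    have e1 : (d : ℝ) ^ (3 / 2 : ℝ) = d * Real.sqrt d := by
      rw [show (3 / 2 : ℝ) = 1 + 1 / 2 by norm_num, Real.rpow_add hd0, Real.rpow_one,
        Real.sqrt_eq_rpow]
    have e2 : (2 / Real.sqrt 3) ^ d * (Real.sqrt 3 / 2) ^ d = 1 := by
      rw [← mul_pow]
      have : 2 / Real.sqrt 3 * (Real.sqrt 3 / 2) = 1 := by field_simp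
      rw [this, one_pow]
    have h1 : p ≤ 10 * (Real.sqrt 3 / 2) ^ d / Real.sqrt d := by rw [hpc]; exact hpu
    have hq : 0 < (2 / Real.sqrt 3) ^ d := by positivity
    calc γ / 5120 * ((d : ℝ) ^ (3 / 2 : ℝ) * (2 / Real.sqrt 3) ^ d) * (128 * p)
        ≤ γ / 5120 * ((d : ℝ) ^ (3 / 2 : ℝ) * (2 / Real.sqrt 3) ^ d) *
          (128 * (10 * (Real.sqrt 3 / 2) ^ d / Real.sqrt d)) := by gcongr
      _ = γ / 4 * d * ((2 / Real.sqrt 3) ^ d * (Real.sqrt 3 / 2) ^ d) := by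
          rw [e1]; field_simp; ring
      _ = γ * d / 4 := by rw [e2]; ring
  refine (real_castLE hmn {x | ¬ ∃ G : Finset (Fin m), Good x G} _ ?_).trans (hd₁ d h1d m hmL hmU)
  intro x hx
  rw [mem_ofPred_eq] at hx ⊢
  rintro ⟨G, hG⟩
  apply hx
  obtain ⟨I, hI, hIc⟩ := kis_of_good _ hG hp hp0 hm0 hD1
  refine ⟨I.map (Fin.castLEEmb hmn), Kis_castLE hmn hI, ?_⟩
  rw [Finset.card_map]
  exact hsize.trans hIc

end Pool.Agent.Helper84.RK
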